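import Pool.Agent.Helper45.LinK.Defs

/-! # Goals K: groups acting on `D × ℂᵏ` -/

open Complex Metric Set Filter Topology MeasureTheory
open scoped ContDiff ComplexConjugate ComplexOrder

namespace Pool.Agent.Helper45.LinK

open Pool.Agent.Helper95.Lin Pool.Agent.Helper16.Abund Pool.Agent.Helper92.Orb

/-! ## Linear algebra and complex analysis -/

/-- Quasiconformal entire automorphisms of `ℂᵏ` are affine. -/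
def S_LIO : Prop := ∀ {k : ℕ} (F G : Cn k → Cn k), Differentiable ℂ F → Differentiable ℂ G →
  (∀ w, G (F w) = w) → (∀ w, F (G w) = w) → ∀ C : ℝ, 0 ≤ C → (∀ w, QC C (fderiv ℂ F w)) →
  ∀ w, F w = fderiv ℂ F 0 w + F 0

/-- Determinant and norm. -/
def S_DETB : Prop := ∀ k : ℕ, ∃ c : ℝ, 1 ≤ c ∧ (∀ L : CE k, ‖L.det‖ ≤ c * ‖L‖ ^ k) ∧
  ∀ (L : CE k) (C : ℝ), 0 ≤ C → QC C L → ‖L‖ ^ k ≤ c * C ^ k * ‖L.det‖

/-- Two of sufficiently many bounded holomorphic maps are close to each other. -/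
def S_PIG : Prop := ∀ (b k p : ℕ) (z₀ : Cn b) (r₁ r₂ C η : ℝ), 0 < r₂ → r₂ < r₁ → 0 < η →
  ∃ J : ℕ, ∀ F : ℕ → Cn b → (Fin p → CE k),
  (∀ j ≤ J, DifferentiableOn ℂ (F j) (ball z₀ r₁) ∧ ∀ z ∈ ball z₀ r₁, ‖F j z‖ ≤ C) →
  ∃ i j : ℕ, i < j ∧ j ≤ J ∧ ∀ z ∈ closedBall z₀ r₂, ‖F j z - F i z‖ ≤ η

/-- Trace of a power bounded map. -/
def S_UNIP : Prop := ∀ {k : ℕ} (L : CE k) (C : ℝ), (∀ n : ℕ, ‖L ^ n‖ ≤ C) →
  ‖LinearMap.trace ℂ (Cn k) (L : Cn k →ₗ[ℂ] Cn k)‖ ≤ k ∧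
  (LinearMap.trace ℂ (Cn k) (L : Cn k →ₗ[ℂ] Cn k) = k → L = 1)

/-! ## The semisimple part -/

/-- The scalar cocycles of words in commutators. -/
def S_STEPD : Prop := ∀ N : ℕ, ∃ C : ℝ, 1 ≤ C ∧ ∀ {b : ℕ} {D : Set (Cn b)} {Γ : Type} [Group Γ]
  {g : Γ → Cn b → Cn b} {a : Γ → Cn b → ℂ}, GAct D g → (∀ γ, DifferentiableOn ℂ (a γ) D) →
  (∀ γ, ∀ z ∈ D, a γ z ≠ 0) → (∀ γ γ', ∀ z ∈ D, a (γ * γ') z = a γ (g γ' z) * a γ' z) →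
  ∀ (z₀ : Cn b) (r ρ d L : ℝ),
  0 < ρ → ρ < r → ball z₀ r ⊆ D → 0 ≤ d → 0 ≤ L → C * d ≤ ρ → ∀ {p : ℕ} (γ : Fin p → Γ),
  (∀ k, Sz g z₀ r d (γ k)) → (∀ k, Lz a z₀ r L (γ k)) → ∀ δ ∈ Words N γ,
    Lz a z₀ (r - ρ) (C / ρ * d * L) δ ∧
    (C * d * L ≤ 1 → ∀ x ∈ ball z₀ (r - ρ), ‖a δ x - 1‖ ≤ C * d * L)

/-- The recursion, with a gain of precision. -/
def S_REC2 : Prop := ∀ (p : ℕ) (B : Br p), SLie p B → ∃ (κ ε₀ K₁ : ℝ) (N : ℕ), RecOK B κ ε₀ K₁ N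

/-- First stage: tuples whose determinants are close to one. -/
def S_NS1 : Prop := ∀ {b k : ℕ} {D : Set (Cn b)} {Γ : Type} [Group Γ] {g : Γ → Cn b → Cn b}
  {A : Γ → Cn b → CE k} {β : Γ → Cn b → Cn k}, LActK D g A β → ∀ (p : ℕ) (B : Br p)
  (P : Γ →* Endo p), SData D g p B P → ∀ (κ ε₀ K₁ : ℝ) (N : ℕ), RecOK B κ ε₀ K₁ N →
  ∀ z₀ ∈ D, ∃ r : ℝ, 0 < r ∧ closedBall z₀ (2 * r) ⊆ D ∧ ∀ δ ε₁ : ℝ, 0 < δ → 0 < ε₁ →
  ∃ (ε : ℝ) (γ : Fin p → Γ), 0 < ε ∧ ε ≤ ε₁ ∧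
    (∀ l, ‖P (γ l) - 1 - ε • adB B (Pi.single l 1)‖ ≤ (κ / 2) * ε) ∧
    (∀ l, Sz g z₀ r δ (γ l)) ∧
    ∀ l, ∀ x ∈ ball z₀ r, ‖(A (γ l) x).det - 1‖ ≤ δ ∧ ‖(A (γ l)⁻¹ x).det - 1‖ ≤ δ

/-- Second stage: tuples whose linear parts are close to the identity. -/
def S_NS2 : Prop := ∀ {b k : ℕ} {D : Set (Cn b)} {Γ : Type} [Group Γ] {g : Γ → Cn b → Cn b}
  {A : Γ → Cn b → CE k} {β : Γ → Cn b → Cn k}, LActK D g A β → ∀ (p : ℕ) (B : Br p)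
  (P : Γ →* Endo p), SData D g p B P → ∀ (κ ε₀ K₁ : ℝ) (N : ℕ), RecOK B κ ε₀ K₁ N →
  ∀ z₀ ∈ D, ∃ r : ℝ, 0 < r ∧ closedBall z₀ (2 * r) ⊆ D ∧ ∀ δ ε₁ : ℝ, 0 < δ → 0 < ε₁ →
  ∃ (ε : ℝ) (γ : Fin p → Γ), 0 < ε ∧ ε ≤ ε₁ ∧
    (∀ l, ‖P (γ l) - 1 - ε • adB B (Pi.single l 1)‖ ≤ κ * ε) ∧
    (∀ l, Sz g z₀ r δ (γ l)) ∧
    ∀ l, ∀ x ∈ ball z₀ r, ‖A (γ l) x - 1‖ ≤ δ ∧ ‖A (γ l)⁻¹ x - 1‖ ≤ δ

/-- There is no semisimple part. -/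
def S_NOSSK : Prop := ∀ {b k : ℕ} {D : Set (Cn b)} {Γ : Type} [Group Γ] {g : Γ → Cn b → Cn b}
  {A : Γ → Cn b → CE k} {β : Γ → Cn b → Cn k}, LActK D g A β → ∀ (p : ℕ) (B : Br p)
  (P : Γ →* Endo p), SData D g p B P → False

/-! ## The action on `D × ℂᵏ` -/

/-- `TtK` is an action on `D × ℂᵏ`, also after scaling the translation parts. -/
def S_TGAK : Prop := ∀ {b k : ℕ} {D : Set (Cn b)} {Γ : Type} [Group Γ] {g : Γ → Cn b → Cn b}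
  {A : Γ → Cn b → CE k} {β : Γ → Cn b → Cn k}, LActK D g A β →
  (∀ t : ℝ, GAct (tubeK D k) (TtK g A fun γ z => (t : ℂ) • β γ z)) ∧
  IsConnected (tubeK D k) ∧
  (∀ K ⊆ tubeK D k, IsCompact K → {γ | ∃ x ∈ K, TtK g A β γ x ∈ K}.Finite) ∧
  ∃ K ⊆ tubeK D k, IsCompact K ∧ ∀ x ∈ tubeK D k, ∃ γ, TtK g A β γ x ∈ K

/-- The affine form of an action with an invariant metric which is quasiconformal to the flat metric
along the fibres. -/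
def S_AFFK : Prop := ∀ {b k : ℕ} {D : Set (Cn b)} {Γ : Type} [Group Γ]
  {F : Γ → Cn (b + k) → Cn (b + k)} {H : Cn (b + k) → Matrix (Fin (b + k)) (Fin (b + k)) ℂ},
  Dom D → KAct (tubeK D k) F H → QCM D H →
  ∃ (g : Γ → Cn b → Cn b) (A : Γ → Cn b → CE k) (β : Γ → Cn b → Cn k), LActK D g A β ∧
    ∀ γ, ∀ v ∈ tubeK D k, F γ v = TtK g A β γ v

/-- The Caratheodory volume of a commutative family over a Kähler quotient. -/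
def S_APPKK : Prop := ∀ {b k : ℕ} {D : Set (Cn b)} {Γ : Type} [Group Γ] {g : Γ → Cn b → Cn b}
  {A : Γ → Cn b → CE k} {β : Γ → Cn b → Cn k}
  {H : Cn (b + k) → Matrix (Fin (b + k)) (Fin (b + k)) ℂ},
  LActK D g A β → KAct (tubeK D k) (TtK g A β) H →
  ∀ {m : ℕ} {V : Fin m → Cn b → Cn b} {Q : Γ →* Matrix (Fin m) (Fin m) ℝ}, AbFam D g m V Q →
  (∀ z ∈ D, 0 < carF D V z) ∧ MeanOn (fun z => Real.log (carF D V z)) D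

/-- The image of `Γ` in the automorphism group of `D` is discrete. -/
def S_DISCRK : Prop := ∀ {b k : ℕ} {D : Set (Cn b)} {Γ : Type} [Group Γ] {g : Γ → Cn b → Cn b}
  {A : Γ → Cn b → CE k} {β : Γ → Cn b → Cn k}
  {H : Cn (b + k) → Matrix (Fin (b + k)) (Fin (b + k)) ℂ},
  LActK D g A β → KAct (tubeK D k) (TtK g A β) H → Disc D g

/-! ## The discrete case -/

/-- The elements acting trivially on `D` act cocompactly on each fibre. -/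
def S_FIBCK : Prop := ∀ {b k : ℕ} {D : Set (Cn b)} {Γ : Type} [Group Γ] {g : Γ → Cn b → Cn b}
  {A : Γ → Cn b → CE k} {β : Γ → Cn b → Cn k}, LActK D g A β → Disc D g → ∀ z ∈ D,
  ∃ R : ℝ, ∀ w : Cn k, ∃ γ, (∀ y ∈ D, g γ y = y) ∧ ‖A γ z w + β γ z‖ ≤ R

/-- The linear parts of the elements acting trivially on `D` are bounded at each point. -/
def S_UNI1 : Prop := ∀ {b k : ℕ} {D : Set (Cn b)} {Γ : Type} [Group Γ] {g : Γ → Cn b → Cn b}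
  {A : Γ → Cn b → CE k} {β : Γ → Cn b → Cn k}, LActK D g A β → ∀ z ∈ D,
  ∃ C : ℝ, ∀ γ, (∀ y ∈ D, g γ y = y) → ‖A γ z‖ ≤ C

/-- Long commutators of elements with linear parts close to the identity act trivially. -/
def S_ZAS : Prop := ∀ {k : ℕ} {N : Type} [Group N] {A : N →* CE k} {a : N → Cn k}, AffN A a →
  ∃ ε : ℝ, 0 < ε ∧ ∀ F : Set N, F.Finite → (∀ f ∈ F, ‖A f - 1‖ ≤ ε) →
  ∃ n : ℕ, ∀ c ∈ CommL F n, A c = 1 ∧ a c = 0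

/-- Fixed points of affine actions of nilpotent type without invariant vectors. -/
def S_FIXN : Prop := ∀ (n : ℕ) (V : Type) [AddCommGroup V] [Module ℂ V] [FiniteDimensional ℂ V]
  {N : Type} [Group N] (A : N →* Module.End ℂ V) (a : N → V),
  (∀ ν ν', a (ν * ν') = A ν (a ν') + a ν) →
  (∀ ν u, (A ν - 1) ((A ν - 1) u) = 0 → (A ν - 1) u = 0) →
  ∀ F : Set N, Subgroup.closure F = ⊤ → (∀ c ∈ CommL F n, A c = 1 ∧ a c = 0) →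
  (∀ v, (∀ f ∈ F, A f v = v) → v = 0) → ∃ p, ∀ f ∈ F, A f p + a f = p

/-- The elements with linear parts close to the identity have a common fixed point modulo their
common invariant vectors. -/
def S_BQ : Prop := ∀ {k : ℕ} {N : Type} [Group N] {A : N →* CE k} {a : N → Cn k}, AffN A a →
  ∃ ε : ℝ, 0 < ε ∧ ∃ V₁ : Submodule ℂ (Cn k), (∀ v, v ∈ V₁ ↔ ∀ ν, ‖A ν - 1‖ ≤ ε → A ν v = v) ∧
    ∃ p : Cn k, ∀ ν, ‖A ν - 1‖ ≤ ε → A ν p + a ν - p ∈ V₁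

/-- Bieberbach's theorem: the group of the linear parts is finite. -/
def S_BIEB : Prop := ∀ {k : ℕ} {N : Type} [Group N] {A : N →* CE k} {a : N → Cn k}, AffN A a →
  (Set.range A).Finite

/-- Being a translation on one fibre is being a translation on all fibres. -/
def S_TRK : Prop := ∀ {b k : ℕ} {D : Set (Cn b)} {Γ : Type} [Group Γ] {g : Γ → Cn b → Cn b}
  {A : Γ → Cn b → CE k} {β : Γ → Cn b → Cn k}, LActK D g A β → ∀ ν, (∀ y ∈ D, g ν y = y) →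
  ∀ z₀ ∈ D, A ν z₀ = 1 → ∀ z ∈ D, A ν z = 1

/-- The lattice in the discrete case. -/
def S_LATTK : Prop := ∀ {b k : ℕ} {D : Set (Cn b)} {Γ : Type} [Group Γ] {g : Γ → Cn b → Cn b}
  {A : Γ → Cn b → CE k} {β : Γ → Cn b → Cn k}, LActK D g A β → Disc D g →
  ∃ ν : Fin (2 * k) → Γ, (∀ l, ∀ z ∈ D, g (ν l) z = z ∧ A (ν l) z = 1) ∧
    ∀ z ∈ D, LinearIndependent ℝ (fun l => β (ν l) z)

/-- The main theorem in coordinates. -/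
def S_CORE : Prop := ∀ {b k : ℕ} {D : Set (Cn b)} {Γ : Type} [Group Γ]
  {F : Γ → Cn (b + k) → Cn (b + k)} {H : Cn (b + k) → Matrix (Fin (b + k)) (Fin (b + k)) ℂ},
  Dom D → KAct (tubeK D k) F H → QCM D H →
  ∃ Λ : Cn b → Fin (2 * k) → Cn k, LatticeFamily D Λ ∧
    ∀ m : Fin (2 * k) → ℤ, ∃ γ, ∀ v ∈ tubeK D k, F γ v = shift Λ (fun l => (m l : ℝ)) v

end Pool.Agent.Helper45.LinK
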