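import Pool.Agent.Helper45.LinK.GoalsK

/-! # Goals M: from manifolds to coordinates -/

open Complex Metric Set Filter Topology MeasureTheory
open scoped ContDiff ComplexConjugate ComplexOrder Manifold

namespace Pool.Agent.Helper45.LinK

open Pool.Agent.Helper95.Lin Pool.Agent.Helper16.Abund Pool.Agent.Helper92.Orb

universe u

/-- The point of `ℂᵇ⁺ᵏ` underlying a point of `D × ℂᵏ`. -/
def tvK {b k : ℕ} {D : Set (Cn b)} {hD : IsOpen D} (y : TorTube hD k) : Cn (b + k) :=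
  Subtype.val (y : tube D hD k)

/-- The fibres of the metric `h` are quasiconformal to the flat metric, locally uniformly. -/
def QCFib {b k : ℕ} {D : Set (Cn b)} (hD : IsOpen D)
    (h : TorTube hD k → Matrix (Fin (b + k)) (Fin (b + k)) ℂ) : Prop :=
  ∀ K ⊆ D, IsCompact K → ∃ C : ℝ, 0 ≤ C ∧ ∀ y : TorTube hD k, base (tvK y) ∈ K →
    ∀ u u' : Cn k, ‖u‖ = ‖u'‖ →
      (herm (h y) (vert u) (vert u)).re ≤ C * (herm (h y) (vert u') (vert u')).re

/-- An action on `D × ℂᵏ` with an invariant Kähler metric, in coordinates. -/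
def S_KFM : Prop := ∀ {b k : ℕ} {D : Set (Cn b)} (hD : IsOpen D), IsConnected D →
  ∀ (Γ : Type) [Group Γ] [MulAction Γ (TorTube hD k)], OrbAction (b + k) Γ (TorTube hD k) →
  (∀ K : Set (TorTube hD k), IsCompact K → {γ : Γ | ∃ y ∈ K, γ • y ∈ K}.Finite) →
  ∀ h : TorTube hD k → Matrix (Fin (b + k)) (Fin (b + k)) ℂ, KahlerMetric (b + k) (TorTube hD k) h →
  (∀ γ : Γ, InvMetric (b + k) h (fun y : TorTube hD k => γ • y)) →
  ∃ (F : Γ → Cn (b + k) → Cn (b + k)) (H : Cn (b + k) → Matrix (Fin (b + k)) (Fin (b + k)) ℂ),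
    KAct (tubeK D k) F H ∧ (∀ (γ : Γ) (y : TorTube hD k), tvK (γ • y) = F γ (tvK y)) ∧
    ∀ y : TorTube hD k, H (tvK y) = h y

/-- The main theorem for actions on `D × ℂᵏ`. -/
def S_MAINK : Prop := ∀ {b k : ℕ} {D : Set (Cn b)} (hD : IsOpen D), IsConnected D →
  Bornology.IsBounded D → ∀ (Γ : Type) [Group Γ] [MulAction Γ (TorTube hD k)],
  OrbAction (b + k) Γ (TorTube hD k) →
  (∀ K : Set (TorTube hD k), IsCompact K → {γ : Γ | ∃ y ∈ K, γ • y ∈ K}.Finite) →
  (∃ h, KahlerMetric (b + k) (TorTube hD k) h ∧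
    (∀ γ : Γ, InvMetric (b + k) h (fun y : TorTube hD k => γ • y)) ∧ QCFib hD h) →
  ∃ Λ : Cn b → Fin (2 * k) → Fin k → ℂ, LatticeFamily D Λ ∧ ContainsLattice hD Λ Γ

/-- The same for groups in any universe, and semiampleness. -/
def S_ORBK : Prop := ∀ {b k : ℕ} {D : Set (Cn b)} (hD : IsOpen D), IsConnected D →
  Bornology.IsBounded D → ∀ (Γ : Type u) [Group Γ] [MulAction Γ (TorTube hD k)],
  OrbAction (b + k) Γ (TorTube hD k) →
  (∀ K : Set (TorTube hD k), IsCompact K → {γ : Γ | ∃ y ∈ K, γ • y ∈ K}.Finite) →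
  (∃ h, KahlerMetric (b + k) (TorTube hD k) h ∧
    (∀ γ : Γ, InvMetric (b + k) h (fun y : TorTube hD k => γ • y)) ∧ QCFib hD h) →
  (∃ Λ : Cn b → Fin (2 * k) → Fin k → ℂ, LatticeFamily D Λ ∧ ContainsLattice hD Λ Γ) ∧
  OrbSemiample (b + k) Γ (TorTube hD k)

/-! ## Galois coverings -/

section deck

variable {b k : ℕ} {D : Set (Fin b → ℂ)} {hD : IsOpen D} {X : Type u}

/-- The deck transformation group of the map `P : D × ℂᵏ → X`. -/
def DeckK (P : TorTube hD k → X) : Subgroup (TorTube hD k ≃ₜ TorTube hD k) where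
  carrier := {h | ∀ y, P (h y) = P y}
  one_mem' := fun _ => rfl
  mul_mem' := fun {a b} ha hb y => by
    change P (a (b y)) = P y
    rw [ha, hb]
  inv_mem' := fun {a} ha y => by
    have h := ha (a⁻¹ y)
    rw [show a (a⁻¹ y) = y from a.apply_symm_apply y] at h
    exact h.symm

instance (P : TorTube hD k → X) : MulAction (DeckK P) (TorTube hD k) where
  smul h y := h.1 y
  one_smul _ := rfl
  mul_smul _ _ _ := rfl

/-- `P` is Galois: the deck transformations act transitively on the fibres. -/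
def GaloisK (P : TorTube hD k → X) : Prop :=
  ∀ y y', P y = P y' → ∃ h : TorTube hD k ≃ₜ TorTube hD k, (∀ v, P (h v) = P v) ∧ h y = y'

/-- The differential of `P` at `y` applied to the vertical vector `(0, u)`. -/
noncomputable def vmap {b k : ℕ} {D : Set (Fin b → ℂ)} {hD : IsOpen D} {X : Type u}
    [TopologicalSpace X] [ChartedSpace (Fin (b + k) → ℂ) X] (P : TorTube hD k → X)
    (y : TorTube hD k) (u : Fin k → ℂ) : Fin (b + k) → ℂ :=
  (mfderiv 𝓘(ℂ, Fin (b + k) → ℂ) 𝓘(ℂ, Fin (b + k) → ℂ) P y :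
    (Fin (b + k) → ℂ) →L[ℂ] (Fin (b + k) → ℂ)) (vert u)

/-- The metric `g` of `X`, pulled back to the fibres of `D × ℂᵏ`, is quasiconformal to the flat
metric, locally uniformly on `D`. -/
def QCAlong {b k : ℕ} {D : Set (Fin b → ℂ)} {hD : IsOpen D} {X : Type u}
    [TopologicalSpace X] [ChartedSpace (Fin (b + k) → ℂ) X]
    (g : X → Matrix (Fin (b + k)) (Fin (b + k)) ℂ) (P : TorTube hD k → X) : Prop :=
  ∀ K ⊆ D, IsCompact K → ∃ C : ℝ, 0 ≤ C ∧ ∀ y : TorTube hD k, base (tvK y) ∈ K →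
    ∀ u u' : Fin k → ℂ, ‖u‖ = ‖u'‖ → (herm (g (P y)) (vmap P y u) (vmap P y u)).re ≤
      C * (herm (g (P y)) (vmap P y u') (vmap P y u')).re

/-- The metric `g` of `X`, pulled back to the fibres of `D × ℂᵏ`, is flat: each fibre is
isometric to `ℂᵏ` by a biholomorphic map. -/
def FlatAlong {b k : ℕ} {D : Set (Fin b → ℂ)} {hD : IsOpen D} {X : Type u}
    [TopologicalSpace X] [ChartedSpace (Fin (b + k) → ℂ) X]
    (g : X → Matrix (Fin (b + k)) (Fin (b + k)) ℂ) (P : TorTube hD k → X) : Prop :=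
  ∀ z ∈ D, ∃ Φ Φ' : (Fin k → ℂ) → (Fin k → ℂ), Differentiable ℂ Φ ∧ Differentiable ℂ Φ' ∧
    (∀ w, Φ' (Φ w) = w) ∧ (∀ w, Φ (Φ' w) = w) ∧
    ∀ y : TorTube hD k, base (tvK y) = z → ∀ u v : Fin k → ℂ,
      herm (g (P y)) (vmap P y u) (vmap P y v) =
        ∑ i, fderiv ℂ Φ (fib (tvK y)) u i * conj (fderiv ℂ Φ (fib (tvK y)) v i)

end deck

/-- Deck transformations are holomorphic. -/
def S_DKHOLK : Prop := ∀ {b k : ℕ} {D : Set (Cn b)} (hD : IsOpen D) (X : Type u)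
  [TopologicalSpace X] [ChartedSpace (Fin (b + k) → ℂ) X]
  [IsManifold 𝓘(ℂ, Fin (b + k) → ℂ) ω X] (P : TorTube hD k → X), HolCovering (b + k) P →
  ∀ h : TorTube hD k ≃ₜ TorTube hD k, (∀ v, P (h v) = P v) →
    MDifferentiable 𝓘(ℂ, Fin (b + k) → ℂ) 𝓘(ℂ, Fin (b + k) → ℂ) h

/-- The deck group acts properly. -/
def S_DKPRK : Prop := ∀ {b k : ℕ} {D : Set (Cn b)} (hD : IsOpen D), IsConnected D →
  ∀ (X : Type u) [TopologicalSpace X] [T2Space X] (P : TorTube hD k → X), Continuous P →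
  IsCoveringMap P →
  ∀ K : Set (TorTube hD k), IsCompact K → {γ : DeckK P | ∃ y ∈ K, γ • y ∈ K}.Finite

/-- The deck group of a Galois covering of a compact space acts cocompactly. -/
def S_DKCOK : Prop := ∀ {b k : ℕ} {D : Set (Cn b)} (hD : IsOpen D) (X : Type u)
  [TopologicalSpace X] [CompactSpace X] (P : TorTube hD k → X), Function.Surjective P →
  IsCoveringMap P → GaloisK P →
  ∃ K : Set (TorTube hD k), IsCompact K ∧ ∀ x : TorTube hD k, ∃ γ : DeckK P, γ • x ∈ K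

/-- The pulled back Kähler metric. -/
def S_DKMETK : Prop := ∀ {b k : ℕ} {D : Set (Cn b)} (hD : IsOpen D) (X : Type u)
  [TopologicalSpace X] [ChartedSpace (Fin (b + k) → ℂ) X]
  [IsManifold 𝓘(ℂ, Fin (b + k) → ℂ) ω X] (P : TorTube hD k → X), HolCovering (b + k) P →
  ∀ g, KahlerMetric (b + k) X g → ∃ h, KahlerMetric (b + k) (TorTube hD k) h ∧
    (∀ T : TorTube hD k → TorTube hD k,
      MDifferentiable 𝓘(ℂ, Fin (b + k) → ℂ) 𝓘(ℂ, Fin (b + k) → ℂ) T → (∀ v, P (T v) = P v) →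
      InvMetric (b + k) h T) ∧
    ∀ (y : TorTube hD k) (u v : Fin k → ℂ),
      herm (h y) (vert u) (vert v) = herm (g (P y)) (vmap P y u) (vmap P y v)

/-- The local form of properness. -/
def S_DKLOCK : Prop := ∀ {b k : ℕ} {D : Set (Cn b)} (hD : IsOpen D) (Γ : Type u) [Group Γ]
  [MulAction Γ (TorTube hD k)],
  (∀ K : Set (TorTube hD k), IsCompact K → {γ : Γ | ∃ y ∈ K, γ • y ∈ K}.Finite) →
  ∀ x : TorTube hD k, ∃ U ∈ 𝓝 x, {γ : Γ | ∃ y ∈ U, γ • y ∈ U}.Finite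

/-- The images of the fibres are compact. -/
def S_FIBIMK : Prop := ∀ {b k : ℕ} {D : Set (Cn b)} (hD : IsOpen D)
  (Λ : Cn b → Fin (2 * k) → Fin k → ℂ), LatticeFamily D Λ → ∀ (X : Type u) [TopologicalSpace X]
  (P : TorTube hD k → X), Continuous P →
  (∀ (m : Fin (2 * k) → ℤ) (y : TorTube hD k), P (latShift hD Λ m y) = P y) →
  ∀ z ∈ D, IsCompact (P '' {y : TorTube hD k | base (tvK y) = z})

/-- Compact Kähler manifolds with a Galois covering `D × ℂᵏ`, quasiconformal case. -/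
def S_GALQ : Prop := ∀ {b k : ℕ} {D : Set (Cn b)} (hD : IsOpen D), IsConnected D →
  Bornology.IsBounded D → ∀ (X : Type u) [TopologicalSpace X] [T2Space X] [CompactSpace X]
  [ChartedSpace (Fin (b + k) → ℂ) X] [IsManifold 𝓘(ℂ, Fin (b + k) → ℂ) ω X]
  (g : X → Matrix (Fin (b + k)) (Fin (b + k)) ℂ), KahlerMetric (b + k) X g →
  ∀ (P : TorTube hD k → X), HolCovering (b + k) P → GaloisK P → QCAlong g P →
  CanSemiample (b + k) X ∧ ∀ z ∈ D, IsCompact (P '' {y : TorTube hD k | base (tvK y) = z})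

end Pool.Agent.Helper45.LinK
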