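import Pool.Agent.Helper95.Lin.Assembly
import Pool.Agent.Helper45.LinK.GoalsM
import Pool.Agent.Helper73.LinK.LIO
import Pool.Agent.Helper77.LinK.DETB
import Pool.Agent.Helper48.LinK.PIG
import Pool.Agent.Helper29.LinK.UNIP
import Pool.Agent.Helper87.LinK.STEPD
import Pool.Agent.Helper87.LinK.TGAK
import Pool.Agent.Helper87.LinK.APPKK
import Pool.Agent.Helper5.LinK.REC2
import Pool.Agent.Helper1.LinK.NS1
import Pool.Agent.Helper35.LinK.NS2
import Pool.Agent.Helper11.LinK.NOSSK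
import Pool.Agent.Helper9.LinK.AFFK
import Pool.Agent.Helper32.LinK.DISCRK
import Pool.Agent.Helper58.LinK.FIBCK
import Pool.Agent.Helper53.LinK.UNI1
import Pool.Agent.Helper32.LinK.ZAS
import Pool.Agent.Helper56.LinK.BQ
import Pool.Agent.Helper60.LinK.BIEB
import Pool.Agent.Helper82.LinK.TRK
import Pool.Agent.Helper25.LinK.LATTK
import Pool.Agent.Helper59.LinK.CORE
import Pool.Agent.Helper83.LinK.KFM
import Pool.Agent.Helper65.LinK.MAINK
import Pool.Agent.Helper57.LinK.ORBK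
import Pool.Agent.Helper51.LinK.DKHOLK
import Pool.Agent.Helper58.LinK.DKPRK
import Pool.Agent.Helper9.LinK.DKMETK
import Pool.Agent.Helper11.LinK.FIBIMK
import Pool.Agent.Helper33.LinK.GALQ
import Pool.Agent.Helper62.LinK.FIXN
import Pool.Agent.Helper87.LinK.DKCOK
import Pool.Agent.Helper87.LinK.DKLOCK

/-! # Assembly: the quasiconformal case -/

namespace Pool.Agent.Helper45.LinK

open Pool.Agent.Helper95.Lin

universe u

theorem t_DETB : S_DETB := Pool.Agent.Helper77.LinK.DETB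
theorem t_LIO : S_LIO := Pool.Agent.Helper73.LinK.lio t_AFF t_DETB
theorem t_PIG : S_PIG := Pool.Agent.Helper48.LinK.pig
theorem t_UNIP : S_UNIP := Pool.Agent.Helper29.LinK.t_UNIP
theorem t_STEPD : S_STEPD := Pool.Agent.Helper87.LinK.stepd
theorem t_TGAK : S_TGAK := Pool.Agent.Helper87.LinK.Tga.tgak
theorem t_APPKK : S_APPKK :=
  Pool.Agent.Helper87.LinK.Appk.appkk t_KE t_KMAIN t_CARC t_CARP t_CAREQ t_CARD t_DEPF
theorem t_REC2 : S_REC2 := Pool.Agent.Helper5.LinK.rec2 t_RIG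
theorem t_NS1 : S_NS1 := Pool.Agent.Helper1.LinK.ns1 t_STEPSZ t_STEPD t_PWR
theorem t_NS2 : S_NS2 := Pool.Agent.Helper35.LinK.NS2 t_NS1 t_PIG t_DETB t_PWR
theorem t_NOSSK : S_NOSSK := Pool.Agent.Helper11.LinK.nossK t_NS2 t_REC2 t_STEPSZ t_TGAK
theorem t_AFFK : S_AFFK := Pool.Agent.Helper9.LinK.affk t_LIO
theorem t_DISCRK : S_DISCRK :=
  Pool.Agent.Helper32.LinK.DISCRKP.t_DISCRK t_DISC t_ALT t_NOAB t_NOSSK t_APPKK
theorem t_FIBCK : S_FIBCK := Pool.Agent.Helper58.LinK.fibck t_FINMAP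
theorem t_UNI1 : S_UNI1 := Pool.Agent.Helper53.LinK.UNI1 t_DETB
theorem t_ZAS : S_ZAS := Pool.Agent.Helper32.LinK.ZASP.t_ZAS
theorem t_TRK : S_TRK := Pool.Agent.Helper82.LinK.trk t_UNI1 t_UNIP
theorem t_FIXN : S_FIXN := Pool.Agent.Helper62.LinK.fixn
theorem t_BQ : S_BQ := Pool.Agent.Helper56.LinK.t_BQ t_ZAS t_FIXN
theorem t_BIEB : S_BIEB := Pool.Agent.Helper60.LinK.BIEB t_BQ
theorem t_LATTK : S_LATTK := Pool.Agent.Helper25.LinK.LATTK t_FIBCK t_UNI1 t_BIEB t_TRK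
theorem t_CORE : S_CORE := Pool.Agent.Helper59.LinK.CORE t_AFFK t_DISCRK t_LATTK
theorem t_KFM : S_KFM := Pool.Agent.Helper83.LinK.kfm
theorem t_DKHOLK : S_DKHOLK.{u} := Pool.Agent.Helper51.LinK.dkholk
theorem t_DKPRK : S_DKPRK.{u} := Pool.Agent.Helper58.LinK.dkprk
theorem t_DKMETK : S_DKMETK.{u} := Pool.Agent.Helper9.LinK.dkmetk
theorem t_FIBIMK : S_FIBIMK.{u} := Pool.Agent.Helper11.LinK.fibimK
theorem t_DKCOK : S_DKCOK.{u} := Pool.Agent.Helper87.LinK.Dkco.dkcok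
theorem t_DKLOCK : S_DKLOCK.{u} := Pool.Agent.Helper87.LinK.Dkloc.dklock
theorem t_MAINK : S_MAINK := Pool.Agent.Helper65.LinK.MAINK t_KFM t_CORE
theorem t_ORBK : S_ORBK.{u} := Pool.Agent.Helper57.LinK.ORBK t_MAINK
theorem t_GALQ : S_GALQ.{u} := Pool.Agent.Helper33.LinK.GALQ t_MAINK t_DKHOLK t_DKPRK t_DKCOK
  t_DKMETK t_DKLOCK t_FIBIMK

end Pool.Agent.Helper45.LinK
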