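import Pool.Agent.Helper45.LinK.GoalsN
import Pool.Agent.Helper67.LinK.FI
import Pool.Agent.Helper65.LinK.FN
import Pool.Agent.Helper60.LinK.FLAT
import Pool.Agent.Helper89.LinK.BASEK
import Pool.Agent.Helper8.Abund.FDerivHolo

/-! # Packet FBD: the second fundamental form is bounded along the fibres -/

open Complex Metric Set Filter Topology MeasureTheory
open scoped ContDiff ComplexConjugate ComplexOrder

namespace Pool.Agent.Helper45.LinK

open Pool.Agent.Helper95.Lin Pool.Agent.Helper16.Abund Pool.Agent.Helper92.Orb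

namespace Fbd

theorem norm_dz_le {n : ℕ} (e : Cn n) (f : Cn n → ℂ) (x : Cn n) :
    ‖dz e f x‖ ≤ 2 * ‖fderiv ℝ f x‖ * ‖e‖ := by
  unfold dz
  have h1 : ‖fderiv ℝ f x e‖ ≤ ‖fderiv ℝ f x‖ * ‖e‖ := (fderiv ℝ f x).le_opNorm e
  have h2 : ‖I • fderiv ℝ f x (I • e)‖ ≤ ‖fderiv ℝ f x‖ * ‖e‖ := by
    rw [norm_smul, Complex.norm_I, one_mul]
    refine ((fderiv ℝ f x).le_opNorm _).trans ?_
    rw [norm_smul, Complex.norm_I, one_mul]
  calc ‖fderiv ℝ f x e - I • fderiv ℝ f x (I • e)‖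
      ≤ ‖fderiv ℝ f x e‖ + ‖I • fderiv ℝ f x (I • e)‖ := norm_sub_le _ _
    _ ≤ 2 * ‖fderiv ℝ f x‖ * ‖e‖ := by linarith

theorem norm_form_le {n : ℕ} (a : Fin n → Fin n → ℂ) (c : ℝ) (h : ∀ i j, ‖a i j‖ ≤ c)
    (ξ η : Cn n) : ‖∑ i, ∑ j, a i j * ξ i * conj (η j)‖ ≤ (n * n * c) * ‖ξ‖ * ‖η‖ := by
  have hc : ∀ i j : Fin n, 0 ≤ c := fun i j => (norm_nonneg _).trans (h i j)
  have h1 : ∀ i j, ‖a i j * ξ i * conj (η j)‖ ≤ c * ‖ξ‖ * ‖η‖ := by
    intro i j
    rw [norm_mul, norm_mul, RCLike.norm_conj]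
    have := h i j
    have h2 := norm_le_pi_norm ξ i
    have h3 := norm_le_pi_norm η j
    have := hc i j
    gcongr
  calc ‖∑ i, ∑ j, a i j * ξ i * conj (η j)‖ ≤ ∑ i : Fin n, ∑ j : Fin n, c * ‖ξ‖ * ‖η‖ :=
        (norm_sum_le _ _).trans (Finset.sum_le_sum fun i _ => (norm_sum_le _ _).trans
          (Finset.sum_le_sum fun j _ => h1 i j))
    _ = (n * n * c) * ‖ξ‖ * ‖η‖ := by
        simp only [Finset.sum_const, Finset.card_univ, Fintype.card_fin, nsmul_eq_mul]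
        ring

variable {b k : ℕ} {D : Set (Cn b)} {H : Cn (b + k) → Matrix (Fin (b + k)) (Fin (b + k)) ℂ}
  {N : Cn (b + k) → Cn k →L[ℂ] CE k}

theorem norm_hor_le (e : Cn b) : ‖(hor e : Cn (b + k))‖ ≤ ‖e‖ := by
  rw [pi_norm_le_iff_of_nonneg (norm_nonneg _)]
  intro i
  refine Fin.addCases (fun i => ?_) (fun i => ?_) i
  · simp only [hor, Fin.append_left]
    exact norm_le_pi_norm e i
  · simp only [hor, Fin.append_right, Pi.zero_apply, norm_zero]
    exact norm_nonneg _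

theorem hor_add_vert (η : Cn (b + k)) : hor (base η) + vert (fib η) = η := by
  funext i
  refine Fin.addCases (fun i => ?_) (fun i => ?_) i
  · simp only [hor, vert, Pi.add_apply, Fin.append_left, Pi.zero_apply, add_zero]
    rfl
  · simp only [hor, vert, Pi.add_apply, Fin.append_right, Pi.zero_apply, zero_add]
    rfl

/-- The explicit form. -/
theorem sff_eq {x : Cn (b + k)} (hd : ∀ i j, DifferentiableAt ℝ (fun y => H y i j) x)
    (u u' : Cn k) (η : Cn (b + k)) :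
    sff H N x u u' η =
      (∑ i, ∑ j, dz (vert u) (fun y => H y i j) x * (vert u' : Cn (b + k)) i * conj (η j)) -
        ∑ i, ∑ j, H x i j * (vert (N x u u') : Cn (b + k)) i * conj (η j) := by
  unfold sff
  rw [Pool.Agent.Helper65.LinK.dz_hermi hd]
  rfl

theorem sff_base (hM : Met (tubeK D k) H) (hN : Chr D H N) {x : Cn (b + k)}
    (hx : x ∈ tubeK D k) (u u' : Cn k) (η : Cn (b + k)) :
    sff H N x u u' η = sff H N x u u' (hor (base η)) := by
  have hd : ∀ i j, DifferentiableAt ℝ (fun y => H y i j) x := fun i j =>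
    ((hM.smooth i j).contDiffAt (hM.isOpen.mem_nhds hx)).differentiableAt (by simp)
  have h0 : sff H N x u u' (vert (fib η)) = 0 := by
    unfold sff
    rw [hN.eq x hx, sub_self]
  have hadd : sff H N x u u' (hor (base η) + vert (fib η)) =
      sff H N x u u' (hor (base η)) + sff H N x u u' (vert (fib η)) := by
    rw [sff_eq hd, sff_eq hd, sff_eq hd]
    have e1 : ∀ a : Fin (b + k) → Fin (b + k) → ℂ, ∀ ξ η η' : Cn (b + k),
        ∑ i, ∑ j, a i j * ξ i * conj ((η + η') j) =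
          (∑ i, ∑ j, a i j * ξ i * conj (η j)) + ∑ i, ∑ j, a i j * ξ i * conj (η' j) := by
      intro a ξ η η'
      rw [← Finset.sum_add_distrib]
      refine Finset.sum_congr rfl fun i _ => ?_
      rw [← Finset.sum_add_distrib]
      refine Finset.sum_congr rfl fun j _ => ?_
      rw [Pi.add_apply, map_add]
      ring
    rw [e1, e1]
    ring
  rw [hor_add_vert, h0, add_zero] at hadd
  exact hadd

/-- The bound on compact sets. -/
theorem sff_bound (hM : Met (tubeK D k) H) (hN : Chr D H N) {K : Set (Cn (b + k))}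
    (hK : IsCompact K) (hKM : K ⊆ tubeK D k) :
    ∃ C : ℝ, 0 ≤ C ∧ ∀ x ∈ K, ∀ (u u' : Cn k) (e : Cn b),
      ‖sff H N x u u' (hor e)‖ ≤ C * ‖u‖ * ‖u'‖ * ‖e‖ := by
  classical
  have hex : ∀ f : Cn (b + k) → ℝ, ContinuousOn f K → ∃ B : ℝ, 0 ≤ B ∧ ∀ x ∈ K, f x ≤ B := by
    intro f hf
    obtain ⟨B, hB⟩ := hK.exists_bound_of_continuousOn hf
    exact ⟨max B 0, le_max_right _ _, fun x hx =>
      (le_abs_self _).trans ((hB x hx).trans (le_max_left _ _))⟩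
  have h1 : ∀ i j, ∃ B : ℝ, 0 ≤ B ∧ ∀ x ∈ K, ‖fderiv ℝ (fun y => H y i j) x‖ ≤ B := fun i j =>
    hex _ ((((hM.smooth i j).fderiv_of_isOpen (m := ∞) hM.isOpen le_rfl).continuousOn.norm).mono
      hKM)
  have h2 : ∀ i j, ∃ B : ℝ, 0 ≤ B ∧ ∀ x ∈ K, ‖H x i j‖ ≤ B := fun i j =>
    hex _ (((hM.smooth i j).continuousOn.norm).mono hKM)
  obtain ⟨B3, h30, h3⟩ : ∃ B : ℝ, 0 ≤ B ∧ ∀ x ∈ K, ‖N x‖ ≤ B := by
    have hNc : ContinuousOn N K := hN.smooth.continuousOn.mono hKM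
    obtain ⟨B, hB⟩ := IsCompact.exists_bound_of_continuousOn (E := Cn k →L[ℂ] CE k) hK hNc
    exact ⟨max B 0, le_max_right _ _, fun x hx => (hB x hx).trans (le_max_left _ _)⟩
  choose B1 h10 h1 using h1
  choose B2 h20 h2 using h2
  set c1 : ℝ := ∑ i, ∑ j, B1 i j with hc1
  set c2 : ℝ := ∑ i, ∑ j, B2 i j with hc2
  have hle : ∀ B : Fin (b + k) → Fin (b + k) → ℝ, (∀ i j, 0 ≤ B i j) → ∀ i j,
      B i j ≤ ∑ i, ∑ j, B i j := fun B hB i j =>
    (Finset.single_le_sum (f := fun j => B i j) (fun j _ => hB i j) (Finset.mem_univ j)).trans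
      (Finset.single_le_sum (f := fun i => ∑ j, B i j)
        (fun i _ => Finset.sum_nonneg fun j _ => hB i j) (Finset.mem_univ i))
  have hc10 : 0 ≤ c1 := Finset.sum_nonneg fun i _ => Finset.sum_nonneg fun j _ => h10 i j
  have hc20 : 0 ≤ c2 := Finset.sum_nonneg fun i _ => Finset.sum_nonneg fun j _ => h20 i j
  set n : ℝ := ((b + k : ℕ) : ℝ) with hn
  have hn0 : 0 ≤ n := by positivity
  refine ⟨n * n * (2 * c1) + n * n * c2 * B3, by positivity, fun x hx u u' e => ?_⟩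
  have hd : ∀ i j, DifferentiableAt ℝ (fun y => H y i j) x := fun i j =>
    ((hM.smooth i j).contDiffAt (hM.isOpen.mem_nhds (hKM hx))).differentiableAt (by simp)
  rw [sff_eq hd]
  have hv : ∀ a : Cn k, ‖(vert a : Cn (b + k))‖ = ‖a‖ := Pool.Agent.Helper60.LinK.norm_vert
  have ha : ∀ i j, ‖dz (vert u) (fun y => H y i j) x‖ ≤ 2 * c1 * ‖u‖ := fun i j => by
    refine (norm_dz_le _ _ _).trans ?_
    rw [hv]
    have := (h1 i j x hx).trans (hle B1 h10 i j)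
    gcongr
  have hb : ∀ i j, ‖H x i j‖ ≤ c2 := fun i j => (h2 i j x hx).trans (hle B2 h20 i j)
  have e1 := norm_form_le (fun i j => dz (vert u) (fun y => H y i j) x) _ ha
    (vert u' : Cn (b + k)) (hor e)
  have e2 := norm_form_le (fun i j => H x i j) _ hb (vert (N x u u') : Cn (b + k)) (hor e)
  rw [hv] at e1 e2
  have he := norm_hor_le (k := k) e
  have hNu : ‖N x u u'‖ ≤ B3 * ‖u‖ * ‖u'‖ := by
    refine ((N x u).le_opNorm u').trans ?_
    have := (N x).le_opNorm u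
    have := h3 x hx
    calc ‖N x u‖ * ‖u'‖ ≤ (‖N x‖ * ‖u‖) * ‖u'‖ := by gcongr
      _ ≤ B3 * ‖u‖ * ‖u'‖ := by gcongr
  have e1' : ‖∑ i, ∑ j, dz (vert u) (fun y => H y i j) x * (vert u' : Cn (b + k)) i *
      conj ((hor e : Cn (b + k)) j)‖ ≤ n * n * (2 * c1) * ‖u‖ * ‖u'‖ * ‖e‖ := by
    refine e1.trans ?_
    calc n * n * (2 * c1 * ‖u‖) * ‖u'‖ * ‖(hor e : Cn (b + k))‖
        ≤ n * n * (2 * c1 * ‖u‖) * ‖u'‖ * ‖e‖ := by gcongr
      _ = _ := by ring
  have e2' : ‖∑ i, ∑ j, H x i j * (vert (N x u u') : Cn (b + k)) i *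
      conj ((hor e : Cn (b + k)) j)‖ ≤ n * n * c2 * B3 * ‖u‖ * ‖u'‖ * ‖e‖ := by
    refine e2.trans ?_
    calc n * n * c2 * ‖N x u u'‖ * ‖(hor e : Cn (b + k))‖
        ≤ n * n * c2 * (B3 * ‖u‖ * ‖u'‖) * ‖e‖ := by gcongr
      _ = _ := by ring
  calc _ ≤ _ := norm_sub_le _ _
    _ ≤ n * n * (2 * c1) * ‖u‖ * ‖u'‖ * ‖e‖ + n * n * c2 * B3 * ‖u‖ * ‖u'‖ * ‖e‖ :=
        add_le_add e1' e2'
    _ = _ := by ring

end Fbd

open Fbd in
theorem fbd (hFI : S_FI) (hBA : S_BASEK) : S_FBD := by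
  intro b k D Γ _ F H N hD hA hN z hz
  have hM : Met (tubeK D k) H := ⟨hA.act.isOpen, hA.posDef, hA.smooth, hA.closed⟩
  obtain ⟨g, hg, hbas⟩ := hBA hD hA.act
  obtain ⟨K, hKM, hK, hcoc⟩ := hA.coc
  obtain ⟨C1, hC10, hC1⟩ := sff_bound hM hN hK hKM
  obtain ⟨c, C', hc, hC', hq⟩ := Pool.Agent.Helper60.LinK.qf_bounds hA.posDef
    (fun i j => (hA.smooth i j).continuousOn) hK hKM
  -- derivatives of the base maps
  obtain ⟨r, hr, hrD⟩ : ∃ r : ℝ, 0 < r ∧ ball z (2 * r) ⊆ D := by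
    obtain ⟨s, hs, hsD⟩ := Metric.isOpen_iff.1 hD.isOpen z hz
    exact ⟨s / 2, by positivity, by rw [mul_div_cancel₀ _ (two_ne_zero)]; exact hsD⟩
  obtain ⟨R, hR⟩ := hD.bdd.exists_norm_le
  have hG : ∀ γ, ‖fderiv ℂ (g γ) z‖ ≤ R / r := fun γ =>
    Pool.Agent.Helper8.Abund.norm_fderiv_le_of_bound hr ((hg.holo γ).mono hrD) fun u hu =>
      hR _ (hg.maps γ u (hrD hu))
  refine ⟨(C1 / c) ^ 2 * (R / r) ^ 2, fun w u u' e => ?_⟩
  set v : Cn (b + k) := Fin.append z w with hv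
  have hbv : base v = z := by
    funext i
    simp [hv, base, Fin.append_left]
  have hvT : v ∈ tubeK D k := by
    change base v ∈ D
    rw [hbv]
    exact hz
  obtain ⟨γ, hγ⟩ := hcoc v hvT
  set x := F γ v with hx
  have hxT : x ∈ tubeK D k := hKM hγ
  have hTd : DifferentiableAt ℂ (F γ) v := (hA.act.holo γ).differentiableAt
    (hM.isOpen.mem_nhds hvT)
  set J := fderiv ℂ (F γ) v with hJ
  have hbJ : ∀ a : Cn k, base (J (vert a)) = 0 := fun a =>
    Pool.Agent.Helper67.LinK.base_fderiv_vert (hbas γ) hvT hTd a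
  have hLv : ∀ a : Cn k, vert (fib (J (vert a))) = J (vert a) := fun a =>
    Pool.Agent.Helper67.LinK.vert_fib (hbJ a)
  have hqL : ∀ a : Cn k, (hermi (H x) (vert (fib (J (vert a)))) (vert (fib (J (vert a))))).re =
      (hermi (H v) (vert a) (vert a)).re := fun a => by
    rw [hLv, hA.inv γ v hvT]
  have hbase : base (J (hor e)) = fderiv ℂ (g γ) z e := by
    have h1 : HasFDerivAt (fun y => base (F γ y))
        ((Pool.Agent.Helper67.LinK.baseL : Cn (b + k) →L[ℂ] Cn b).comp J) v :=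
      (Pool.Agent.Helper67.LinK.baseL : Cn (b + k) →L[ℂ] Cn b).hasFDerivAt.comp v
        hTd.hasFDerivAt
    have hgd : DifferentiableAt ℂ (g γ) (base v) := by
      rw [hbv]
      exact (hg.holo γ).differentiableAt (hD.isOpen.mem_nhds hz)
    have h2 : HasFDerivAt (fun y => g γ (base y))
        ((fderiv ℂ (g γ) (base v)).comp (Pool.Agent.Helper67.LinK.baseL)) v :=
      hgd.hasFDerivAt.comp v
        (Pool.Agent.Helper67.LinK.baseL : Cn (b + k) →L[ℂ] Cn b).hasFDerivAt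
    have h3 : (fun y => base (F γ y)) =ᶠ[𝓝 v] fun y => g γ (base y) := by
      filter_upwards [hM.isOpen.mem_nhds hvT] with y hy
      exact hbas γ y hy
    have h4 := (h2.congr_of_eventuallyEq h3).unique h1
    have h5 := congrArg (fun L : Cn (b + k) →L[ℂ] Cn b => L (hor e)) h4
    simp only [ContinuousLinearMap.comp_apply, Pool.Agent.Helper67.LinK.baseL_apply] at h5
    rw [← h5, hbv]
    congr 1
    funext i
    simp [base, hor, Fin.append_left]
  have h1 : sff H N v u u' (hor e) = sff H N x (fib (J (vert u))) (fib (J (vert u')))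
      (hor (fderiv ℂ (g γ) z e)) := by
    rw [hFI hA hbas hN γ v hvT u u' (hor e), sff_base hM hN hxT, hbase]
  rw [h1]
  set a := fib (J (vert u)) with ha
  set a' := fib (J (vert u')) with ha'
  have h2 := hC1 x hγ a a' (fderiv ℂ (g γ) z e)
  have h3 : ‖fderiv ℂ (g γ) z e‖ ≤ R / r * ‖e‖ :=
    ((fderiv ℂ (g γ) z).le_opNorm e).trans (mul_le_mul_of_nonneg_right (hG γ) (norm_nonneg _))
  have h4 := (hq x hγ a).1
  have h5 := (hq x hγ a').1
  have e4 : Pool.Agent.Helper60.LinK.qf H x a = (hermi (H v) (vert u) (vert u)).re := hqL u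
  have e5 : Pool.Agent.Helper60.LinK.qf H x a' = (hermi (H v) (vert u') (vert u')).re := hqL u'
  rw [e4] at h4
  rw [e5] at h5
  set q1 := (hermi (H v) (vert u) (vert u)).re
  set q2 := (hermi (H v) (vert u') (vert u')).re
  have hRr : 0 ≤ R / r := (norm_nonneg _).trans (hG 1)
  have h6 : ‖sff H N x a a' (hor (fderiv ℂ (g γ) z e))‖ ≤ C1 * ‖a‖ * ‖a'‖ * (R / r * ‖e‖) :=
    h2.trans (by gcongr)
  calc ‖sff H N x a a' (hor (fderiv ℂ (g γ) z e))‖ ^ 2
      ≤ (C1 * ‖a‖ * ‖a'‖ * (R / r * ‖e‖)) ^ 2 := by gcongr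
    _ = (C1 / c) ^ 2 * (c * ‖a‖ ^ 2) * (c * ‖a'‖ ^ 2) * (R / r) ^ 2 * ‖e‖ ^ 2 := by
        field_simp
    _ ≤ (C1 / c) ^ 2 * q1 * q2 * (R / r) ^ 2 * ‖e‖ ^ 2 := by
        have h7 : 0 ≤ c * ‖a‖ ^ 2 := by positivity
        have h8 : 0 ≤ c * ‖a'‖ ^ 2 := by positivity
        have h9 : 0 ≤ q1 := h7.trans h4
        gcongr
    _ = _ := by ring

end Pool.Agent.Helper45.LinK
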