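import Pool.Agent.Helper45.LinK.GoalsN
import Pool.Agent.Helper57.LinK.FB

/-! # The final form of the theorems -/

open Complex Metric Set Filter Topology MeasureTheory
open scoped ContDiff ComplexConjugate ComplexOrder Manifold

namespace Pool.Agent.Helper45.LinK

open Pool.Agent.Helper95.Lin Pool.Agent.Helper16.Abund Pool.Agent.Helper92.Orb

universe u

/-- If `k < 2`, vectors of `ℂᵏ` of the same norm differ by a factor of modulus one. -/
theorem exists_unit {k : ℕ} (hk : k < 2) (u u' : Cn k) (h : ‖u‖ = ‖u'‖) :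
    ∃ c : ℂ, ‖c‖ = 1 ∧ u = c • u' := by
  rcases Nat.lt_or_ge 0 k with h0 | h0
  · obtain rfl : k = 1 := by omega
    by_cases hu : u' 0 = 0
    · have e : u' = 0 := by
        ext i
        rw [Subsingleton.elim i 0, hu]
        rfl
      rw [e, norm_zero, norm_eq_zero] at h
      exact ⟨1, norm_one, by rw [h, e, smul_zero]⟩
    · have hn : ∀ v : Cn 1, ‖v‖ = ‖v 0‖ := fun v => by
        have := pi_norm_const (ι := Fin 1) (v 0)
        rw [← this]
        congr 1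
        ext i
        rw [Subsingleton.elim i 0]
      refine ⟨u 0 / u' 0, ?_, ?_⟩
      · rw [norm_div, ← hn, ← hn, h]
        exact div_self (by rw [hn]; exact norm_ne_zero_iff.2 hu)
      · ext i
        rw [Subsingleton.elim i 0]
        simp [div_mul_cancel₀ _ hu]
  · obtain rfl : k = 0 := by omega
    exact ⟨1, norm_one, Subsingleton.elim _ _⟩

theorem herm_smul_smul {n : ℕ} (A : Matrix (Fin n) (Fin n) ℂ) (c : ℂ) (hc : ‖c‖ = 1)
    (u v : Fin n → ℂ) : herm A (c • u) (c • v) = herm A u v := by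
  have hcc : c * conj c = 1 := by
    rw [Complex.mul_conj, Complex.normSq_eq_norm_sq, hc]
    norm_num
  unfold herm
  refine Finset.sum_congr rfl fun i _ => Finset.sum_congr rfl fun j _ => ?_
  simp only [Pi.smul_apply, smul_eq_mul, map_mul]
  calc A i j * (c * u i) * (conj c * conj (v j)) = A i j * u i * conj (v j) * (c * conj c) := by ring
    _ = _ := by rw [hcc, mul_one]

/-- For `k < 2` every metric is quasiconformal along the fibres. -/
theorem qcFib_of_lt {b k : ℕ} {D : Set (Cn b)} (hD : IsOpen D) (hk : k < 2)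
    (h : TorTube hD k → Matrix (Fin (b + k)) (Fin (b + k)) ℂ) : QCFib hD h := by
  intro K _ _
  refine ⟨1, zero_le_one, fun y _ u u' hu => ?_⟩
  obtain ⟨c, hc, rfl⟩ := exists_unit hk u u' hu
  rw [Pool.Agent.Helper57.LinK.vert_smul, herm_smul_smul _ c hc, one_mul]

theorem qcAlong_of_lt {b k : ℕ} {D : Set (Fin b → ℂ)} {hD : IsOpen D} (hk : k < 2)
    {X : Type u} [TopologicalSpace X] [ChartedSpace (Fin (b + k) → ℂ) X]
    (g : X → Matrix (Fin (b + k)) (Fin (b + k)) ℂ) (P : TorTube hD k → X) : QCAlong g P := by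
  intro K _ _
  refine ⟨1, zero_le_one, fun y _ u u' hu => ?_⟩
  obtain ⟨c, hc, rfl⟩ := exists_unit hk u u' hu
  have e : vmap P y (c • u') = c • vmap P y u' := by
    unfold vmap
    rw [Pool.Agent.Helper57.LinK.vert_smul]
    exact map_smul _ _ _
  rw [e, herm_smul_smul _ c hc, one_mul]

/-- Compact Kähler manifolds with a Galois covering `D × ℂᵏ`. -/
theorem galois_covering_of (hQ : S_GALQ.{u}) (hF : S_GALF.{u}) {b k : ℕ} {D : Set (Fin b → ℂ)}
    (hD : IsOpen D) (hDc : IsConnected D) (hDb : Bornology.IsBounded D) {X : Type u}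
    [TopologicalSpace X] [T2Space X] [CompactSpace X] [ChartedSpace (Fin (b + k) → ℂ) X]
    [IsManifold 𝓘(ℂ, Fin (b + k) → ℂ) ω X] (g : X → Matrix (Fin (b + k)) (Fin (b + k)) ℂ)
    (hg : KahlerMetric (b + k) X g) (P : TorTube hD k → X) (hP : HolCovering (b + k) P)
    (hG : GaloisK P) (hk : 2 ≤ k → QCAlong g P ∨ FlatAlong g P) :
    CanSemiample (b + k) X ∧
      ∀ z ∈ D, IsCompact (P '' {y : TorTube hD k | base (tvK y) = z}) := by
  rcases Nat.lt_or_ge k 2 with h2 | h2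
  · exact hQ hD hDc hDb X g hg P hP hG (qcAlong_of_lt h2 g P)
  · rcases hk h2 with h | h
    · exact hQ hD hDc hDb X g hg P hP hG h
    · exact hF hD hDc hDb X g hg P hP hG h

/-- Compact Kähler quotients of `D × ℂᵏ`. -/
theorem orbifold_quotient_of (hQ : S_ORBK.{u}) (hF : S_ORBF.{u}) {b k : ℕ}
    {D : Set (Fin b → ℂ)} (hD : IsOpen D) (hDc : IsConnected D) (hDb : Bornology.IsBounded D)
    (Γ : Type u) [Group Γ] [MulAction Γ (TorTube hD k)] (hΓ : OrbAction (b + k) Γ (TorTube hD k))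
    (hpr : ∀ K : Set (TorTube hD k), IsCompact K → {γ : Γ | ∃ y ∈ K, γ • y ∈ K}.Finite)
    (hK : ∃ h, KahlerMetric (b + k) (TorTube hD k) h ∧
      (∀ γ : Γ, InvMetric (b + k) h (fun y : TorTube hD k => γ • y)) ∧
      (2 ≤ k → QCFib hD h ∨ FlatFib hD h)) :
    (∃ e : TorTube hD k ≃ₜ TorTube hD k,
      MDifferentiable 𝓘(ℂ, Fin (b + k) → ℂ) 𝓘(ℂ, Fin (b + k) → ℂ) e ∧
      MDifferentiable 𝓘(ℂ, Fin (b + k) → ℂ) 𝓘(ℂ, Fin (b + k) → ℂ) e.symm ∧
      (∀ y, base (tvK (e y)) = base (tvK y)) ∧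
      ∃ Λ : (Fin b → ℂ) → Fin (2 * k) → Fin k → ℂ, LatticeFamily D Λ ∧
        ∀ m : Fin (2 * k) → ℤ, ∃ γ : Γ, ∀ y, e (γ • y) = latShift hD Λ m (e y)) ∧
    OrbSemiample (b + k) Γ (TorTube hD k) := by
  obtain ⟨h, hh, hinv, hk⟩ := hK
  have hq : QCFib hD h → (∃ e : TorTube hD k ≃ₜ TorTube hD k,
      MDifferentiable 𝓘(ℂ, Fin (b + k) → ℂ) 𝓘(ℂ, Fin (b + k) → ℂ) e ∧
      MDifferentiable 𝓘(ℂ, Fin (b + k) → ℂ) 𝓘(ℂ, Fin (b + k) → ℂ) e.symm ∧
      (∀ y, base (tvK (e y)) = base (tvK y)) ∧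
      ∃ Λ : (Fin b → ℂ) → Fin (2 * k) → Fin k → ℂ, LatticeFamily D Λ ∧
        ∀ m : Fin (2 * k) → ℤ, ∃ γ : Γ, ∀ y, e (γ • y) = latShift hD Λ m (e y)) ∧
      OrbSemiample (b + k) Γ (TorTube hD k) := by
    intro hqc
    obtain ⟨⟨Λ, hΛ, hc⟩, hs⟩ := hQ hD hDc hDb Γ hΓ hpr ⟨h, hh, hinv, hqc⟩
    refine ⟨⟨Homeomorph.refl _, mdifferentiable_id, mdifferentiable_id, fun _ => rfl, Λ, hΛ,
      fun m => ?_⟩, hs⟩
    obtain ⟨γ, hγ⟩ := hc m
    exact ⟨γ, hγ⟩
  rcases Nat.lt_or_ge k 2 with h2 | h2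
  · exact hq (qcFib_of_lt hD h2 h)
  · rcases hk h2 with h3 | h3
    · exact hq h3
    · exact hF hD hDc hDb Γ hΓ hpr ⟨h, hh, hinv, h3⟩

end Pool.Agent.Helper45.LinK
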