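import Pool.Agent.Helper45.LinK.GoalsN
import Pool.Agent.Helper92.Orb.Group

/-! # Packet ORBT -/

open Complex Metric Set Filter Topology MeasureTheory
open scoped ContDiff ComplexConjugate ComplexOrder Manifold

namespace Pool.Agent.Helper45.LinK

open Pool.Agent.Helper95.Lin Pool.Agent.Helper16.Abund Pool.Agent.Helper92.Orb

universe u

theorem orbt : S_ORBT.{u} := by
  intro n Γ _ M M' _ _ _ _ _ _ _ _ e he he' hΓ hΔ heq ⟨r, hr, hs⟩
  refine ⟨r, hr, fun x => ?_⟩
  obtain ⟨c, hc, hcx⟩ := hs (e x)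
  refine ⟨fun y => c (e y) * jac n e y ^ r, ?_, ?_⟩
  · exact InvForm.pullback_equivariant hΓ hΔ hc he (φ := fun γ => γ) fun γ _ y => heq γ y
  · refine mul_ne_zero hcx (pow_ne_zero _ fun h0 => ?_)
    have h1 := jac_mul_eq_one (n := n) (g := e.symm) (f := e) (x := x) (he' (e x)) (he x)
      (Filter.Eventually.of_forall fun y => e.symm_apply_apply y)
    rw [h0, mul_zero] at h1
    exact zero_ne_one h1

end Pool.Agent.Helper45.LinK
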