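import Pool.Agent.Helper45.LinK.Assembly1
import Pool.Agent.Helper45.LinK.Final
import Pool.Agent.Helper45.LinK.Orbt
import Pool.Agent.Helper45.LinK.Fbd
import Pool.Agent.Helper31.LinK.CRE
import Pool.Agent.Helper32.LinK.COMM
import Pool.Agent.Helper56.LinK.SYM
import Pool.Agent.Helper27.LinK.LINE
import Pool.Agent.Helper75.LinK.INTH
import Pool.Agent.Helper25.LinK.INVH
import Pool.Agent.Helper33.LinK.PIC
import Pool.Agent.Helper89.LinK.BASEK
import Pool.Agent.Helper65.LinK.FN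
import Pool.Agent.Helper6.LinK.FH
import Pool.Agent.Helper57.LinK.FB
import Pool.Agent.Helper11.LinK.FTH
import Pool.Agent.Helper67.LinK.FI
import Pool.Agent.Helper58.LinK.FT
import Pool.Agent.Helper60.LinK.FLAT
import Pool.Agent.Helper87.LinK.TUBM
import Pool.Agent.Helper88.LinK.GALF
import Pool.Agent.Helper93.LinK.ORBF

/-! # Assembly: flat fibres -/

open scoped Manifold ContDiff

namespace Pool.Agent.Helper45.LinK

open Pool.Agent.Helper95.Lin Pool.Agent.Helper16.Abund Pool.Agent.Helper92.Orb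

universe u

theorem t_CRE : S_CRE := Pool.Agent.Helper31.LinK.cre
theorem t_COMM : S_COMM := Pool.Agent.Helper32.LinK.COMMP.t_COMM
theorem t_SYM : S_SYM := Pool.Agent.Helper56.LinK.t_SYM
theorem t_LINE : S_LINE := Pool.Agent.Helper27.LinK.LINE
theorem t_INTH : S_INTH := Pool.Agent.Helper75.LinK.inth
theorem t_INVH : S_INVH := Pool.Agent.Helper25.LinK.invh
theorem t_PIC : S_PIC := Pool.Agent.Helper33.LinK.PIC.thm t_INTH
theorem t_BASEK : S_BASEK := Pool.Agent.Helper89.LinK.baseK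
theorem t_FN : S_FN := Pool.Agent.Helper65.LinK.FN
theorem t_FH : S_FH := Pool.Agent.Helper6.LinK.FH
theorem t_FB : S_FB := Pool.Agent.Helper57.LinK.fb t_SYM t_COMM t_CRE
theorem t_FTH : S_FTH := Pool.Agent.Helper11.LinK.fth t_COMM t_CRE
theorem t_FI : S_FI := Pool.Agent.Helper67.LinK.FI
theorem t_TUBM : S_TUBM := Pool.Agent.Helper87.LinK.Tubm.tubm
theorem t_ORBT : S_ORBT.{u} := orbt

theorem t_FBD : S_FBD := fbd t_FI t_BASEK
theorem t_FT : S_FT := Pool.Agent.Helper58.LinK.ft t_FH t_FB t_FTH t_FBD t_LINE t_CRE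
theorem t_FLAT : S_FLAT := Pool.Agent.Helper60.LinK.flat t_FN t_FT t_FH t_PIC t_INTH t_INVH
theorem t_GALF : S_GALF.{u} := Pool.Agent.Helper88.LinK.GALF t_FLAT t_KFM t_GALQ t_TUBM
  t_DKHOLK t_DKPRK t_DKCOK t_DKMETK t_DKLOCK
theorem t_ORBF : S_ORBF.{u} := Pool.Agent.Helper93.LinK.orbf t_ORBK t_KFM t_FLAT t_TUBM t_ORBT

/-- Compact Kähler manifolds with a Galois covering `D × ℂᵏ`. -/
theorem galois_covering {b k : ℕ} {D : Set (Fin b → ℂ)}
    (hD : IsOpen D) (hDc : IsConnected D) (hDb : Bornology.IsBounded D) {X : Type u}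
    [TopologicalSpace X] [T2Space X] [CompactSpace X] [ChartedSpace (Fin (b + k) → ℂ) X]
    [IsManifold 𝓘(ℂ, Fin (b + k) → ℂ) ω X] (g : X → Matrix (Fin (b + k)) (Fin (b + k)) ℂ)
    (hg : KahlerMetric (b + k) X g) (P : TorTube hD k → X) (hP : HolCovering (b + k) P)
    (hG : GaloisK P) (hk : 2 ≤ k → QCAlong g P ∨ FlatAlong g P) :
    CanSemiample (b + k) X ∧
      ∀ z ∈ D, IsCompact (P '' {y : TorTube hD k | base (tvK y) = z}) :=
  galois_covering_of t_GALQ t_GALF hD hDc hDb g hg P hP hG hk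

/-- Compact Kähler quotients of `D × ℂᵏ`. -/
theorem orbifold_quotient {b k : ℕ}
    {D : Set (Fin b → ℂ)} (hD : IsOpen D) (hDc : IsConnected D) (hDb : Bornology.IsBounded D)
    (Γ : Type u) [Group Γ] [MulAction Γ (TorTube hD k)] (hΓ : OrbAction (b + k) Γ (TorTube hD k))
    (hpr : ∀ K : Set (TorTube hD k), IsCompact K → {γ : Γ | ∃ y ∈ K, γ • y ∈ K}.Finite)
    (hK : ∃ h, KahlerMetric (b + k) (TorTube hD k) h ∧
      (∀ γ : Γ, InvMetric (b + k) h (fun y : TorTube hD k => γ • y)) ∧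
      (2 ≤ k → QCFib hD h ∨ FlatFib hD h)) :
    (∃ e : TorTube hD k ≃ₜ TorTube hD k,
      MDifferentiable 𝓘(ℂ, Fin (b + k) → ℂ) 𝓘(ℂ, Fin (b + k) → ℂ) e ∧
      MDifferentiable 𝓘(ℂ, Fin (b + k) → ℂ) 𝓘(ℂ, Fin (b + k) → ℂ) e.symm ∧
      (∀ y, base (tvK (e y)) = base (tvK y)) ∧
      ∃ Λ : (Fin b → ℂ) → Fin (2 * k) → Fin k → ℂ, LatticeFamily D Λ ∧
        ∀ m : Fin (2 * k) → ℤ, ∃ γ : Γ, ∀ y, e (γ • y) = latShift hD Λ m (e y)) ∧
    OrbSemiample (b + k) Γ (TorTube hD k) :=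
  orbifold_quotient_of t_ORBK t_ORBF hD hDc hDb Γ hΓ hpr hK

end Pool.Agent.Helper45.LinK
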