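import Pool.Agent.Helper95.Lin.GoalsJ
import Pool.Agent.Helper95.Lin.GoalsA
import Pool.Agent.Helper95.Lin.GoalsF
import Pool.Agent.Helper95.Lin.GoalsG
import Pool.Agent.Helper95.Lin.GoalsH
import Pool.Agent.Helper95.Lin.Basics

/-!
# Groups acting on `D × ℂᵏ`, `D` a bounded domain: definitions

The case `k = 1` is `Pool.Agent.Helper95.Lin`. The fibres of the invariant metric are quasiconformal
to the flat metric (no condition if `k = 1`).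
-/

open Complex Metric Set Filter Topology MeasureTheory
open scoped ContDiff ComplexConjugate ComplexOrder

namespace Pool.Agent.Helper45.LinK

open Pool.Agent.Helper95.Lin Pool.Agent.Helper16.Abund Pool.Agent.Helper92.Orb

/-- Endomorphisms of `ℂᵏ` (a Banach algebra: `1` is the identity, `*` the composition). -/
abbrev CE (k : ℕ) : Type := Cn k →L[ℂ] Cn k

/-- `L` is quasiconformal with constant `C` (for the sup norm of `ℂᵏ`). -/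
def QC {k : ℕ} (C : ℝ) (L : CE k) : Prop := ∀ u v : Cn k, ‖u‖ = ‖v‖ → ‖L u‖ ≤ C * ‖L v‖

/-- A properly discontinuous and cocompact action `(z, w) ↦ (g_γ z, A_γ(z) w + β_γ(z))` on
`D × ℂᵏ` whose linear parts are quasiconformal, locally uniformly on `D`. -/
structure LActK {b k : ℕ} (D : Set (Cn b)) {Γ : Type} [Group Γ] (g : Γ → Cn b → Cn b)
    (A : Γ → Cn b → CE k) (β : Γ → Cn b → Cn k) : Prop where
  base : HAct D g
  a_holo : ∀ γ, DifferentiableOn ℂ (A γ) D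
  b_holo : ∀ γ, DifferentiableOn ℂ (β γ) D
  a_one : ∀ z ∈ D, A 1 z = 1
  b_one : ∀ z ∈ D, β 1 z = 0
  a_mul : ∀ γ γ', ∀ z ∈ D, A (γ * γ') z = A γ (g γ' z) * A γ' z
  b_mul : ∀ γ γ', ∀ z ∈ D, β (γ * γ') z = A γ (g γ' z) (β γ' z) + β γ (g γ' z)
  qc : ∀ K ⊆ D, IsCompact K → ∃ C : ℝ, 0 ≤ C ∧ ∀ γ, ∀ z ∈ K, g γ z ∈ K → QC C (A γ z)
  proper : ∀ K ⊆ D, IsCompact K → ∀ R : ℝ,
    {γ | ∃ z ∈ K, ∃ w : Cn k, ‖w‖ ≤ R ∧ g γ z ∈ K ∧ ‖A γ z w + β γ z‖ ≤ R}.Finite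
  coc : ∃ K ⊆ D, IsCompact K ∧ ∃ R : ℝ, ∀ z ∈ D, ∀ w : Cn k, ∃ γ, g γ z ∈ K ∧
    ‖A γ z w + β γ z‖ ≤ R

/-- The set `D × ℂᵏ` in `ℂᵇ⁺ᵏ`. -/
def tubeK {b : ℕ} (D : Set (Cn b)) (k : ℕ) : Set (Cn (b + k)) := {v | base v ∈ D}

/-- The map `(z, w) ↦ (g_γ z, A_γ(z) w + β_γ(z))`. -/
noncomputable def TtK {b k : ℕ} {Γ : Type} (g : Γ → Cn b → Cn b) (A : Γ → Cn b → CE k)
    (β : Γ → Cn b → Cn k) (γ : Γ) (v : Cn (b + k)) : Cn (b + k) :=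
  Fin.append (g γ (base v)) (A γ (base v) (fib v) + β γ (base v))

/-- The vertical vector `(0, u)`. -/
def vert {b k : ℕ} (u : Cn k) : Cn (b + k) := Fin.append 0 u

/-- The fibres of the metric `H` are quasiconformal to the flat metric, locally uniformly on `D`. -/
def QCM {b k : ℕ} (D : Set (Cn b)) (H : Cn (b + k) → Matrix (Fin (b + k)) (Fin (b + k)) ℂ) :
    Prop :=
  ∀ K ⊆ D, IsCompact K → ∃ C : ℝ, 0 ≤ C ∧ ∀ v : Cn (b + k), base v ∈ K → ∀ u u' : Cn k,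
    ‖u‖ = ‖u'‖ → (hermi (H v) (vert u) (vert u)).re ≤ C * (hermi (H v) (vert u') (vert u')).re

/-- An affine, properly discontinuous and cocompact action `w ↦ A_ν w + a_ν` on `ℂᵏ` with bounded
linear parts. -/
structure AffN {k : ℕ} {N : Type} [Group N] (A : N →* CE k) (a : N → Cn k) : Prop where
  mul : ∀ ν ν', a (ν * ν') = A ν (a ν') + a ν
  bdd : ∃ C : ℝ, ∀ ν, ‖A ν‖ ≤ C
  proper : ∀ R : ℝ, {ν | ‖a ν‖ ≤ R}.Finite
  coc : ∃ R : ℝ, ∀ w : Cn k, ∃ ν, ‖A ν w + a ν‖ ≤ R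

/-- Left normed commutators of length `n + 1` of elements of `F`. -/
def CommL {N : Type} [Group N] (F : Set N) : ℕ → Set N
  | 0 => F
  | n + 1 => {x | ∃ f ∈ F, ∃ c ∈ CommL F n, x = f * c * f⁻¹ * c⁻¹}

/-- The constants of the recursion in the automorphism group of the Lie algebra `(ℝᵖ, B)`; the
output tuple is twice as precise as the input tuple. -/
def RecOK {p : ℕ} (B : Br p) (κ ε₀ K₁ : ℝ) (N : ℕ) : Prop :=
  0 < κ ∧ 0 < ε₀ ∧ 1 ≤ K₁ ∧ K₁ * ε₀ ≤ 1 / 2 ∧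
  (∀ k : Fin p, 2 * κ < ‖adB B (Pi.single k 1)‖) ∧
  ∀ (Γ : Type) [Group Γ] (P : Γ →* Endo p), (∀ γ x y, P γ (B x y) = B (P γ x) (P γ y)) →
  ∀ ε : ℝ, 0 < ε → ε ≤ ε₀ → ∀ γ : Fin p → Γ,
  (∀ k, ‖P (γ k) - 1 - ε • adB B (Pi.single k 1)‖ ≤ κ * ε) →
  ∃ γ' : Fin p → Γ, (∀ k, γ' k ∈ Words N γ) ∧
    ∀ k, ‖P (γ' k) - 1 - (K₁ * ε ^ 2) • adB B (Pi.single k 1)‖ ≤ (κ / 2) * (K₁ * ε ^ 2)

end Pool.Agent.Helper45.LinK
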