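import Pool.Agent.Helper45.LinK.GoalsM

/-!
# Goals N: flat fibres

If the fibres `{z} × ℂᵏ` of the invariant Kähler metric are flat, then a fibre preserving
biholomorphic map of `D × ℂᵏ` makes the metric constant along the fibres.
-/

open Complex Metric Set Filter Topology MeasureTheory
open scoped ContDiff ComplexConjugate ComplexOrder Manifold

namespace Pool.Agent.Helper45.LinK

open Pool.Agent.Helper95.Lin Pool.Agent.Helper16.Abund Pool.Agent.Helper92.Orb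

universe u

section defs

variable {n : ℕ} {E : Type*} [NormedAddCommGroup E] [NormedSpace ℂ E]

/-- Twice the `(1,0)` derivative in the direction `e`. -/
noncomputable def dz (e : Cn n) (f : Cn n → E) (x : Cn n) : E :=
  fderiv ℝ f x e - I • fderiv ℝ f x (I • e)

/-- Twice the `(0,1)` derivative in the direction `e`. -/
noncomputable def dzb (e : Cn n) (f : Cn n → E) (x : Cn n) : E :=
  fderiv ℝ f x e + I • fderiv ℝ f x (I • e)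

end defs

/-- The horizontal vector `(e, 0)`. -/
def hor {b k : ℕ} (e : Cn b) : Cn (b + k) := Fin.append e 0

/-- `H` is a Kähler metric on the open set `M`. -/
structure Met {n : ℕ} (M : Set (Cn n)) (H : Cn n → Matrix (Fin n) (Fin n) ℂ) : Prop where
  isOpen : IsOpen M
  posDef : ∀ x ∈ M, (H x).PosDef
  smooth : ∀ i j, ContDiffOn ℝ ∞ (fun x => H x i j) M
  closed : ∀ x ∈ M, ∀ i j l, cd l (fun y => H y i j) x = cd i (fun y => H y l j) x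

/-- `N` is twice the Christoffel form of the fibres of the metric `H`. -/
structure Chr {b k : ℕ} (D : Set (Cn b)) (H : Cn (b + k) → Matrix (Fin (b + k)) (Fin (b + k)) ℂ)
    (N : Cn (b + k) → Cn k →L[ℂ] CE k) : Prop where
  smooth : ContDiffOn ℝ ∞ N (tubeK D k)
  eq : ∀ v ∈ tubeK D k, ∀ u u' y : Cn k, hermi (H v) (vert (N v u u')) (vert y) =
    dz (vert u) (fun x => hermi (H x) (vert u') (vert y)) v

/-- The fibre of the metric `H` over `z` is isometric to `ℂᵏ` by the biholomorphic map `Φ`. -/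
def FlatF {b k : ℕ} (H : Cn (b + k) → Matrix (Fin (b + k)) (Fin (b + k)) ℂ) (z : Cn b)
    (Φ Φ' : Cn k → Cn k) : Prop :=
  Differentiable ℂ Φ ∧ Differentiable ℂ Φ' ∧ (∀ w, Φ' (Φ w) = w) ∧ (∀ w, Φ (Φ' w) = w) ∧
    ∀ w u v : Cn k, hermi (H (Fin.append z w)) (vert u) (vert v) =
      ∑ i, fderiv ℂ Φ w u i * conj (fderiv ℂ Φ w v i)

/-- The fibres of the metric `H` are flat. -/
def FlatM {b k : ℕ} (D : Set (Cn b)) (H : Cn (b + k) → Matrix (Fin (b + k)) (Fin (b + k)) ℂ) :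
    Prop :=
  ∀ z ∈ D, ∃ Φ Φ' : Cn k → Cn k, FlatF H z Φ Φ'

/-- The second fundamental form of the fibres. -/
noncomputable def sff {b k : ℕ} (H : Cn (b + k) → Matrix (Fin (b + k)) (Fin (b + k)) ℂ)
    (N : Cn (b + k) → Cn k →L[ℂ] CE k) (v : Cn (b + k)) (u u' : Cn k) (η : Cn (b + k)) : ℂ :=
  dz (vert u) (fun x => hermi (H x) (vert u') η) v - hermi (H v) (vert (N v u u')) η

/-- Fibre preserving biholomorphic maps of `D × ℂᵏ`, inverse to each other. -/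
structure FBih {b : ℕ} (D : Set (Cn b)) (k : ℕ) (Ψ Ψ' : Cn (b + k) → Cn (b + k)) : Prop where
  holo : DifferentiableOn ℂ Ψ (tubeK D k)
  holo' : DifferentiableOn ℂ Ψ' (tubeK D k)
  bas : ∀ v ∈ tubeK D k, base (Ψ v) = base v
  bas' : ∀ v ∈ tubeK D k, base (Ψ' v) = base v
  left : ∀ v ∈ tubeK D k, Ψ' (Ψ v) = v
  right : ∀ v ∈ tubeK D k, Ψ (Ψ' v) = v

/-! ## Calculus -/

/-- Cauchy-Riemann equations. -/
def S_CRE : Prop := ∀ {n : ℕ} {E : Type} [NormedAddCommGroup E] [NormedSpace ℂ E]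
  (f : Cn n → E) (x : Cn n),
  (DifferentiableAt ℂ f x → ∀ e, dzb e f x = 0 ∧ dz e f x = (2 : ℂ) • fderiv ℂ f x e) ∧
  (DifferentiableAt ℝ f x → (∀ e, dzb e f x = 0) → DifferentiableAt ℂ f x)

/-- The derivatives commute. -/
def S_COMM : Prop := ∀ {n : ℕ} {E : Type} [NormedAddCommGroup E] [NormedSpace ℂ E]
  {M : Set (Cn n)}, IsOpen M → ∀ f : Cn n → E, ContDiffOn ℝ ∞ f M →
  (∀ e, ContDiffOn ℝ ∞ (dz e f) M ∧ ContDiffOn ℝ ∞ (dzb e f) M) ∧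
  ∀ x ∈ M, ∀ e e', dzb e (dzb e' f) x = dzb e' (dzb e f) x ∧
    dz e (dzb e' f) x = dzb e' (dz e f) x

/-- A Kähler metric is closed. -/
def S_SYM : Prop := ∀ {n : ℕ} {M : Set (Cn n)} {H : Cn n → Matrix (Fin n) (Fin n) ℂ}, Met M H →
  ∀ x ∈ M, ∀ ζ ξ η : Cn n,
    dz ζ (fun y => hermi (H y) ξ η) x = dz ξ (fun y => hermi (H y) ζ η) x ∧
    dzb ζ (fun y => hermi (H y) ξ η) x = dzb η (fun y => hermi (H y) ξ ζ) x

/-- Bounded solutions of `∂̄f = τ` with `τ` entire. -/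
def S_LINE : Prop := ∀ f τ : ℂ → ℂ, Differentiable ℝ f → Differentiable ℂ τ →
  (∀ ζ, fderiv ℝ f ζ 1 + I * fderiv ℝ f ζ I = τ ζ) → (∃ C : ℝ, ∀ ζ, ‖f ζ‖ ≤ C) → τ 0 = 0

/-- Integrals of holomorphic maps are holomorphic. -/
def S_INTH : Prop := ∀ {n : ℕ} {E : Type} [NormedAddCommGroup E] [NormedSpace ℂ E]
  [CompleteSpace E] {M : Set (Cn n)}, IsOpen M → ∀ φ : ℝ → Cn n → E,
  (∀ s ∈ Icc (0 : ℝ) 1, DifferentiableOn ℂ (φ s) M) →
  ContinuousOn (fun p : ℝ × Cn n => φ p.1 p.2) (Icc (0 : ℝ) 1 ×ˢ M) →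
  DifferentiableOn ℂ (fun x => ∫ s in (0 : ℝ)..1, φ s x) M

/-- The inverse of a biholomorphic map is holomorphic. -/
def S_INVH : Prop := ∀ {n : ℕ} {M : Set (Cn n)}, IsOpen M → ∀ Ψ Ψ' : Cn n → Cn n,
  DifferentiableOn ℂ Ψ M → MapsTo Ψ M M → MapsTo Ψ' M M → (∀ x ∈ M, Ψ' (Ψ x) = x) →
  (∀ x ∈ M, Ψ (Ψ' x) = x) → (∀ x ∈ M, Function.Injective (fderiv ℂ Ψ x)) →
  DifferentiableOn ℂ Ψ' M

/-- Linear differential equations along the fibres, with holomorphic parameters. -/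
def S_PIC : Prop := ∀ {b k : ℕ} {D : Set (Cn b)}, IsOpen D → ∀ N : Cn (b + k) → Cn k →L[ℂ] CE k,
  DifferentiableOn ℂ N (tubeK D k) → ∀ G : Cn (b + k) → CE k,
  (∀ z ∈ D, Differentiable ℂ fun w : Cn k => G (Fin.append z w)) →
  (∀ z ∈ D, G (Fin.append z 0) = 1) →
  (∀ z ∈ D, ∀ w u u' : Cn k, fderiv ℂ (fun w : Cn k => G (Fin.append z w)) w u u' =
    G (Fin.append z w) (N (Fin.append z w) u u')) →
  (∀ K ⊆ D, IsCompact K → ∀ R : ℝ, ∃ B : ℝ, ∀ z ∈ K, ∀ w : Cn k, ‖w‖ ≤ R →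
    ‖G (Fin.append z w)‖ ≤ B) →
  DifferentiableOn ℂ G (tubeK D k)

/-! ## The second fundamental form -/

/-- Actions on `D × ℂᵏ` preserve the fibres. -/
def S_BASEK : Prop := ∀ {b k : ℕ} {D : Set (Cn b)} {Γ : Type} [Group Γ]
  {F : Γ → Cn (b + k) → Cn (b + k)}, Dom D → GAct (tubeK D k) F →
  ∃ g : Γ → Cn b → Cn b, GAct D g ∧ ∀ γ, ∀ v ∈ tubeK D k, base (F γ v) = g γ (base v)

/-- The Christoffel form exists. -/
def S_FN : Prop := ∀ {b k : ℕ} {D : Set (Cn b)}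
  {H : Cn (b + k) → Matrix (Fin (b + k)) (Fin (b + k)) ℂ}, Met (tubeK D k) H →
  ∃ N : Cn (b + k) → Cn k →L[ℂ] CE k, Chr D H N

/-- The Christoffel form of a flat fibre. -/
def S_FH : Prop := ∀ {b k : ℕ} {D : Set (Cn b)}
  {H : Cn (b + k) → Matrix (Fin (b + k)) (Fin (b + k)) ℂ} {N : Cn (b + k) → Cn k →L[ℂ] CE k},
  Met (tubeK D k) H → Chr D H N → ∀ z ∈ D, ∀ Φ Φ' : Cn k → Cn k, FlatF H z Φ Φ' →
  (∀ w u u' : Cn k, (2 : ℂ) • fderiv ℂ (fderiv ℂ Φ) w u u' =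
    fderiv ℂ Φ w (N (Fin.append z w) u u')) ∧
  Differentiable ℂ fun w : Cn k => N (Fin.append z w)

/-- The `(0,1)` derivative of the second fundamental form along the fibres. -/
def S_FB : Prop := ∀ {b k : ℕ} {D : Set (Cn b)}
  {H : Cn (b + k) → Matrix (Fin (b + k)) (Fin (b + k)) ℂ} {N : Cn (b + k) → Cn k →L[ℂ] CE k},
  Met (tubeK D k) H → Chr D H N →
  (∀ z ∈ D, Differentiable ℂ fun w : Cn k => N (Fin.append z w)) →
  ∀ v ∈ tubeK D k, ∀ (u u' y : Cn k) (η : Cn (b + k)),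
    dzb (vert y) (fun x => sff H N x u u' η) v = hermi (H v) (vert (dzb η N v u u')) (vert y)

/-- The `(0,1)` derivative of the Christoffel form is holomorphic along the fibres. -/
def S_FTH : Prop := ∀ {b k : ℕ} {D : Set (Cn b)} {N : Cn (b + k) → Cn k →L[ℂ] CE k}, IsOpen D →
  ContDiffOn ℝ ∞ N (tubeK D k) →
  (∀ z ∈ D, Differentiable ℂ fun w : Cn k => N (Fin.append z w)) →
  ∀ η : Cn (b + k), ∀ z ∈ D, Differentiable ℂ fun w : Cn k => dzb η N (Fin.append z w)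

/-- Invariance of the second fundamental form. -/
def S_FI : Prop := ∀ {b k : ℕ} {D : Set (Cn b)} {Γ : Type} [Group Γ]
  {F : Γ → Cn (b + k) → Cn (b + k)} {H : Cn (b + k) → Matrix (Fin (b + k)) (Fin (b + k)) ℂ}
  {g : Γ → Cn b → Cn b} {N : Cn (b + k) → Cn k →L[ℂ] CE k}, KAct (tubeK D k) F H →
  (∀ γ, ∀ v ∈ tubeK D k, base (F γ v) = g γ (base v)) → Chr D H N →
  ∀ γ, ∀ v ∈ tubeK D k, ∀ (u u' : Cn k) (η : Cn (b + k)),
    sff H N v u u' η = sff H N (F γ v) (fib (fderiv ℂ (F γ) v (vert u)))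
      (fib (fderiv ℂ (F γ) v (vert u'))) (fderiv ℂ (F γ) v η)

/-- The second fundamental form is bounded along the fibres. -/
def S_FBD : Prop := ∀ {b k : ℕ} {D : Set (Cn b)} {Γ : Type} [Group Γ]
  {F : Γ → Cn (b + k) → Cn (b + k)} {H : Cn (b + k) → Matrix (Fin (b + k)) (Fin (b + k)) ℂ}
  {N : Cn (b + k) → Cn k →L[ℂ] CE k}, Dom D → KAct (tubeK D k) F H → Chr D H N →
  ∀ z ∈ D, ∃ C : ℝ, ∀ (w u u' : Cn k) (e : Cn b),
    ‖sff H N (Fin.append z w) u u' (hor e)‖ ^ 2 ≤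
      C * (hermi (H (Fin.append z w)) (vert u) (vert u)).re *
        (hermi (H (Fin.append z w)) (vert u') (vert u')).re * ‖e‖ ^ 2

/-- If the fibres are flat, the Christoffel form is holomorphic. -/
def S_FT : Prop := ∀ {b k : ℕ} {D : Set (Cn b)} {Γ : Type} [Group Γ]
  {F : Γ → Cn (b + k) → Cn (b + k)} {H : Cn (b + k) → Matrix (Fin (b + k)) (Fin (b + k)) ℂ}
  {N : Cn (b + k) → Cn k →L[ℂ] CE k}, Dom D → KAct (tubeK D k) F H → FlatM D H → Chr D H N →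
  DifferentiableOn ℂ N (tubeK D k)

/-- Coordinates in which the metric is constant along the fibres. -/
def S_FLAT : Prop := ∀ {b k : ℕ} {D : Set (Cn b)} {Γ : Type} [Group Γ]
  {F : Γ → Cn (b + k) → Cn (b + k)} {H : Cn (b + k) → Matrix (Fin (b + k)) (Fin (b + k)) ℂ},
  Dom D → KAct (tubeK D k) F H → FlatM D H → ∃ Ψ Ψ' : Cn (b + k) → Cn (b + k), FBih D k Ψ Ψ' ∧
  ∀ K ⊆ D, IsCompact K → ∃ C : ℝ, 0 ≤ C ∧ ∀ v : Cn (b + k), base v ∈ K → ∀ u u' : Cn k,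
    ‖fderiv ℂ Ψ v (vert u)‖ = ‖fderiv ℂ Ψ v (vert u')‖ →
    (hermi (H v) (vert u) (vert u)).re ≤ C * (hermi (H v) (vert u') (vert u')).re

/-! ## Manifolds -/

/-- Fibre preserving biholomorphic maps as maps of the manifold `D × ℂᵏ`. -/
def S_TUBM : Prop := ∀ {b k : ℕ} {D : Set (Cn b)} (hD : IsOpen D)
  (Ψ Ψ' : Cn (b + k) → Cn (b + k)), FBih D k Ψ Ψ' →
  ∃ e : TorTube hD k ≃ₜ TorTube hD k, (∀ y, tvK (e y) = Ψ (tvK y)) ∧
    (∀ y, tvK (e.symm y) = Ψ' (tvK y)) ∧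
    MDifferentiable 𝓘(ℂ, Fin (b + k) → ℂ) 𝓘(ℂ, Fin (b + k) → ℂ) e ∧
    MDifferentiable 𝓘(ℂ, Fin (b + k) → ℂ) 𝓘(ℂ, Fin (b + k) → ℂ) e.symm ∧
    ∀ (y : TorTube hD k) (ξ : Cn (b + k)),
      (mfderiv 𝓘(ℂ, Fin (b + k) → ℂ) 𝓘(ℂ, Fin (b + k) → ℂ) e y :
        (Fin (b + k) → ℂ) →L[ℂ] (Fin (b + k) → ℂ)) ξ = fderiv ℂ Ψ (tvK y) ξ

/-- Compact Kähler manifolds with a Galois covering `D × ℂᵏ` and flat fibres. -/
def S_GALF : Prop := ∀ {b k : ℕ} {D : Set (Cn b)} (hD : IsOpen D), IsConnected D →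
  Bornology.IsBounded D → ∀ (X : Type u) [TopologicalSpace X] [T2Space X] [CompactSpace X]
  [ChartedSpace (Fin (b + k) → ℂ) X] [IsManifold 𝓘(ℂ, Fin (b + k) → ℂ) ω X]
  (g : X → Matrix (Fin (b + k)) (Fin (b + k)) ℂ), KahlerMetric (b + k) X g →
  ∀ (P : TorTube hD k → X), HolCovering (b + k) P → GaloisK P → FlatAlong g P →
  CanSemiample (b + k) X ∧ ∀ z ∈ D, IsCompact (P '' {y : TorTube hD k | base (tvK y) = z})

/-- The fibres of the metric `h` of `D × ℂᵏ` are flat. -/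
def FlatFib {b k : ℕ} {D : Set (Cn b)} (hD : IsOpen D)
    (h : TorTube hD k → Matrix (Fin (b + k)) (Fin (b + k)) ℂ) : Prop :=
  ∀ z ∈ D, ∃ Φ Φ' : Cn k → Cn k, Differentiable ℂ Φ ∧ Differentiable ℂ Φ' ∧
    (∀ w, Φ' (Φ w) = w) ∧ (∀ w, Φ (Φ' w) = w) ∧
    ∀ y : TorTube hD k, base (tvK y) = z → ∀ u v : Cn k, herm (h y) (vert u) (vert v) =
      ∑ i, fderiv ℂ Φ (fib (tvK y)) u i * conj (fderiv ℂ Φ (fib (tvK y)) v i)

/-- Invariant forms and equivariant biholomorphic maps. -/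
def S_ORBT : Prop := ∀ {n : ℕ} {Γ : Type u} [Group Γ] {M M' : Type} [TopologicalSpace M]
  [TopologicalSpace M'] [ChartedSpace (Fin n → ℂ) M] [ChartedSpace (Fin n → ℂ) M']
  [IsManifold 𝓘(ℂ, Fin n → ℂ) ω M] [IsManifold 𝓘(ℂ, Fin n → ℂ) ω M'] [MulAction Γ M]
  [MulAction Γ M'] (e : M ≃ₜ M'), MDifferentiable 𝓘(ℂ, Fin n → ℂ) 𝓘(ℂ, Fin n → ℂ) e →
  MDifferentiable 𝓘(ℂ, Fin n → ℂ) 𝓘(ℂ, Fin n → ℂ) e.symm →
  (∀ γ : Γ, MDifferentiable 𝓘(ℂ, Fin n → ℂ) 𝓘(ℂ, Fin n → ℂ) fun x : M => γ • x) →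
  (∀ γ : Γ, MDifferentiable 𝓘(ℂ, Fin n → ℂ) 𝓘(ℂ, Fin n → ℂ) fun x : M' => γ • x) →
  (∀ (γ : Γ) (x : M), e (γ • x) = γ • e x) → OrbSemiample n Γ M' → OrbSemiample n Γ M

/-- Compact Kähler quotients of `D × ℂᵏ` with flat fibres. -/
def S_ORBF : Prop := ∀ {b k : ℕ} {D : Set (Cn b)} (hD : IsOpen D), IsConnected D →
  Bornology.IsBounded D → ∀ (Γ : Type u) [Group Γ] [MulAction Γ (TorTube hD k)],
  OrbAction (b + k) Γ (TorTube hD k) →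
  (∀ K : Set (TorTube hD k), IsCompact K → {γ : Γ | ∃ y ∈ K, γ • y ∈ K}.Finite) →
  (∃ h, KahlerMetric (b + k) (TorTube hD k) h ∧
    (∀ γ : Γ, InvMetric (b + k) h (fun y : TorTube hD k => γ • y)) ∧ FlatFib hD h) →
  (∃ e : TorTube hD k ≃ₜ TorTube hD k,
    MDifferentiable 𝓘(ℂ, Fin (b + k) → ℂ) 𝓘(ℂ, Fin (b + k) → ℂ) e ∧
    MDifferentiable 𝓘(ℂ, Fin (b + k) → ℂ) 𝓘(ℂ, Fin (b + k) → ℂ) e.symm ∧
    (∀ y, base (tvK (e y)) = base (tvK y)) ∧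
    ∃ Λ : Cn b → Fin (2 * k) → Fin k → ℂ, LatticeFamily D Λ ∧
      ∀ m : Fin (2 * k) → ℤ, ∃ γ : Γ, ∀ y, e (γ • y) = latShift hD Λ m (e y)) ∧
  OrbSemiample (b + k) Γ (TorTube hD k)

end Pool.Agent.Helper45.LinK
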