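import Pool.Agent.Helper45.LinK.Assembly

/-!
# The condition on the leaves

Definitions for the statement of the theorem on compact Kähler manifolds with a Galois covering
`P : D × ℂᵏ → X`.
-/

open scoped Manifold ContDiff ComplexConjugate

namespace Pool.Agent.Helper45.LinK

open Pool.Agent.Helper95.Lin Pool.Agent.Helper16.Abund Pool.Agent.Helper92.Orb

universe u

/-- The differential of the map `P : Y → X` at `y`, in the preferred charts at `y` and `P y`. -/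
noncomputable def cmap (n : ℕ) {Y X : Type*} [TopologicalSpace Y] [ChartedSpace (Fin n → ℂ) Y]
    [TopologicalSpace X] [ChartedSpace (Fin n → ℂ) X] (P : Y → X) (y : Y) :
    (Fin n → ℂ) →L[ℂ] (Fin n → ℂ) :=
  mfderiv 𝓘(ℂ, Fin n → ℂ) 𝓘(ℂ, Fin n → ℂ) P y

/-- The metric `g` of `X`, pulled back by `P`, on the vectors `(0, u)`, `(0, v)` at `y`. -/
noncomputable def leafForm {b k : ℕ} {D : Set (Fin b → ℂ)} {hD : IsOpen D} {X : Type u}
    [TopologicalSpace X] [ChartedSpace (Fin (b + k) → ℂ) X]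
    (g : X → Matrix (Fin (b + k)) (Fin (b + k)) ℂ) (P : TorTube hD k → X) (y : TorTube hD k)
    (u v : Fin k → ℂ) : ℂ :=
  herm (g (P y)) (cmap (b + k) P y (vert u)) (cmap (b + k) P y (vert v))

/-- The Hermitian forms `m y` on `ℂᵏ`, `y ∈ D × ℂᵏ`, are quasiconformal to the flat metric, locally
uniformly on `D`. -/
def QCForm {b k : ℕ} {D : Set (Fin b → ℂ)} (hD : IsOpen D)
    (m : TorTube hD k → (Fin k → ℂ) → (Fin k → ℂ) → ℂ) : Prop :=
  ∀ K ⊆ D, IsCompact K → ∃ C : ℝ, 0 ≤ C ∧ ∀ y : TorTube hD k, base (tvK y) ∈ K →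
    ∀ u u' : Fin k → ℂ, ‖u‖ = ‖u'‖ → (m y u u).re ≤ C * (m y u' u').re

/-- The metric `m` of the leaves `{z} × ℂᵏ` is flat: each leaf is isometric to `ℂᵏ` by a
biholomorphic map. -/
def FlatForm {b k : ℕ} {D : Set (Fin b → ℂ)} (hD : IsOpen D)
    (m : TorTube hD k → (Fin k → ℂ) → (Fin k → ℂ) → ℂ) : Prop :=
  ∀ z ∈ D, ∃ Φ Φ' : (Fin k → ℂ) → (Fin k → ℂ), Differentiable ℂ Φ ∧ Differentiable ℂ Φ' ∧
    (∀ w, Φ' (Φ w) = w) ∧ (∀ w, Φ (Φ' w) = w) ∧
    ∀ y : TorTube hD k, base (tvK y) = z → ∀ u v : Fin k → ℂ,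
      m y u v = ∑ i, fderiv ℂ Φ (fib (tvK y)) u i * conj (fderiv ℂ Φ (fib (tvK y)) v i)

/-- The condition on the leaves (empty if `k < 2`). -/
def LeafCond {b k : ℕ} {D : Set (Fin b → ℂ)} {hD : IsOpen D} {X : Type u}
    [TopologicalSpace X] [ChartedSpace (Fin (b + k) → ℂ) X]
    (g : X → Matrix (Fin (b + k)) (Fin (b + k)) ℂ) (P : TorTube hD k → X) : Prop :=
  2 ≤ k → QCForm hD (leafForm g P) ∨ FlatForm hD (leafForm g P)

/-- Compact Kähler manifolds with a Galois covering `D × ℂᵏ`. -/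
theorem galois_covering' {b k : ℕ} {D : Set (Fin b → ℂ)}
    (hD : IsOpen D) (hDc : IsConnected D) (hDb : Bornology.IsBounded D) {X : Type u}
    [TopologicalSpace X] [T2Space X] [CompactSpace X] [ChartedSpace (Fin (b + k) → ℂ) X]
    [IsManifold 𝓘(ℂ, Fin (b + k) → ℂ) ω X] {g : X → Matrix (Fin (b + k)) (Fin (b + k)) ℂ}
    (hg : KahlerMetric (b + k) X g) {P : TorTube hD k → X} (hP : HolCovering (b + k) P)
    (hG : GaloisK P) (hk : LeafCond g P) :
    CanSemiample (b + k) X ∧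
      ∀ z ∈ D, IsCompact (P '' {y : TorTube hD k | base (tvK y) = z}) :=
  galois_covering hD hDc hDb g hg P hP hG hk

end Pool.Agent.Helper45.LinK
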